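import Pool.Agent.R338.CK.Stm

/-! Copy of `Pool/Agent/Y350/CTK/Mw.lean` with lighter imports (and another name space); see the authors there. -/

/-!
# CTK-MW: the group of the points of `y² + D y = x³` over `K`
-/

set_option autoImplicit false

namespace Pool.Agent.R338.CK.Y350

open WeierstrassCurve
open Pool.Agent.Y703.CT
open Pool.Agent.Y692.QS (Ei w nr toC)
open Pool.Agent.Y715.T.Gi Pool.Agent.Y715.T.Nr Pool.Agent.Y715.T.Df Pool.Agent.Y715.T.Ell
open Pool.Agent.R338.CK.S

open scoped Classical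

namespace Mw

open Pool.Agent.TH841.SH.D (Gal)

variable {k : Type} [Field k]

/-- composition of the maps on the points -/
lemma act_act (W : WeierstrassCurve k) {F L M : Type} [Field F] [Field L] [Field M] [Algebra k F]
    [Algebra k L] [Algebra k M] (φ : F →ₐ[k] L) (ψ : L →ₐ[k] M)
    (P : Pool.Agent.TH841.SH.D.Pt W F) :
    Pool.Agent.TH841.SH.D.act W ψ (Pool.Agent.TH841.SH.D.act W φ P) =
      Pool.Agent.TH841.SH.D.act W (ψ.comp φ) P := by
  rcases P with _ | ⟨x, y, h⟩
  · rfl
  · rfl

lemma act_inj (W : WeierstrassCurve k) {F L : Type} [Field F] [Field L] [Algebra k F]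
    [Algebra k L] (φ : F →ₐ[k] L) : Function.Injective (Pool.Agent.TH841.SH.D.act W φ) :=
  @Affine.Point.map_injective k k F L _ _ _ _ W (Classical.decEq F) (Classical.decEq L)
    _ _ _ _ _ _ _ φ

lemma act_some (W : WeierstrassCurve k) {F L : Type} [Field F] [Field L] [Algebra k F]
    [Algebra k L] (φ : F →ₐ[k] L) {x y : F}
    (h : (W.baseChange F).toAffine.Nonsingular x y) :
    Pool.Agent.TH841.SH.D.act W φ (Affine.Point.some x y h) =
      Affine.Point.some (φ x) (φ y) ((Affine.baseChange_nonsingular W φ.injective ..).mpr h) := rfl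

lemma nons (D : k) (hD : D ≠ 0) : ((ED D).baseChange k).toAffine.Nonsingular 0 0 := by
  rw [Affine.nonsingular_iff, Affine.equation_iff]
  have h1 : ((ED D).baseChange k).a₁ = 0 := rfl
  have h2 : ((ED D).baseChange k).a₂ = 0 := rfl
  have h3 : ((ED D).baseChange k).a₃ = D := rfl
  have h4 : ((ED D).baseChange k).a₄ = 0 := rfl
  have h6 : ((ED D).baseChange k).a₆ = 0 := rfl
  refine ⟨?_, Or.inr ?_⟩
  · show (0 : k) ^ 2 + ((ED D).baseChange k).a₁ * 0 * 0 + ((ED D).baseChange k).a₃ * 0 =
      0 ^ 3 + ((ED D).baseChange k).a₂ * 0 ^ 2 + ((ED D).baseChange k).a₄ * 0 +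
        ((ED D).baseChange k).a₆
    rw [h1, h2, h3, h4, h6]
    ring
  · show (0 : k) ≠ -0 - ((ED D).baseChange k).a₁ * 0 - ((ED D).baseChange k).a₃
    rw [h1, h3]
    intro h
    apply hD
    linear_combination h

end Mw

end Pool.Agent.R338.CK.Y350
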