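import Mathlib
import Pool.Agent.Y703.CT.StmC
import Pool.Agent.Y703.CT.StmE
import Pool.Agent.TH841.NF.ShaN

/-!
# Cubic twists over `ℚ(ω)`: the definitions and statements that are needed here

A light copy of parts of `Pool/Agent/Y696/CTK/Stm.lean` and `Stm2.lean` (helper696 and others), without
the `L`-functions. `E_D : y² + D y = x³` over a field `K` with `j : Ei ≃+* 𝓞 K`, where
`Ei = Pool.Agent.Y692.QS.Ei` are the Eisenstein integers.
-/

set_option autoImplicit false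
set_option linter.unusedVariables false

open scoped Classical

namespace Pool.Agent.R338.CK.S

open NumberField IsDedekindDomain WeierstrassCurve WithZero
open Pool.Agent.Y692.QS (Ei w nr toC)
open Pool.Agent.Y715.T.RecG (Pq)
open Pool.Agent.Y703.CT
open Pool.Agent.Y715.T.Gi Pool.Agent.Y715.T.Nr Pool.Agent.Y715.T.Df Pool.Agent.Y715.T.Ell
open Pool.Agent.TH841.NF.D (Sha)

/-- the curve `y² + D y = x³` -/
def ED {K : Type} [Field K] (D : K) : WeierstrassCurve K := ⟨0, 0, D, 0, 0⟩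

section final
variable {K : Type} [Field K] [NumberField K]

/-- the squarefree `D = 1` modulo `3` with norm different from `1` modulo `9` -/
def ClsK (D : 𝓞 K) : Prop :=
  (3 : 𝓞 K) ∣ D - 1 ∧ Squarefree D ∧ ¬ (9 : ℤ) ∣ Algebra.norm ℤ D - 1

end final

/-- CTK-TRF: transfer of the geometric points, `(x, y) ↦ (x / u², y / u³)`. -/
def S_TRF : Prop := ∀ (K : Type) [Field K] [NumberField K] (j : Ei ≃+* 𝓞 K) (D : Ei), D ≠ 0 →
  ∃ (e : AlgebraicClosure K ≃+* QB) (i₀ : QB) (hi : i₀ ^ 2 + i₀ + 1 = 0) (u : QB)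
    (a : GK i₀ → ZMod 3) (Ψ : Pool.Agent.TH841.SH.D.Pt (ED (j D : K)) (AlgebraicClosure K) ≃+ Pt QB)
    (g : Pool.Agent.TH841.SH.D.Gal K ≃* GK i₀),
    Tw hi D u a ∧ (∀ z : Ei, e (algebraMap K (AlgebraicClosure K) (j z : K)) = ev i₀ hi z) ∧
    Continuous g ∧ Continuous g.symm ∧
    (∀ (σ : Pool.Agent.TH841.SH.D.Gal K) (x : AlgebraicClosure K), e (σ x) = g σ (e x)) ∧
    (∀ (x y : AlgebraicClosure K) (h), ∃ h', Ψ (Affine.Point.some x y h) =
      Affine.Point.some (e x / u ^ 2) (e y / u ^ 3) h') ∧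
    ∀ (σ : Pool.Agent.TH841.SH.D.Gal K)
      (P : Pool.Agent.TH841.SH.D.Pt (ED (j D : K)) (AlgebraicClosure K)),
      Ψ (Pool.Agent.TH841.SH.D.act (ED (j D : K)) σ.toAlgHom P) = act hi a (g σ) (Ψ P)

/-- CTK-SH: the Tate-Shafarevich group over `K`; see `Pool.Agent.TH841.NF.place_p` and
`Pool.Agent.TH841.NF.bridge` for the places. -/
def S_SHT : Prop := S_TRF → ∀ (K : Type) [Field K] [NumberField K] (j : Ei ≃+* 𝓞 K) (D : Ei),
  D ≠ 0 → (∀ (i₀ : QB) (hi : i₀ ^ 2 + i₀ + 1 = 0) (u : QB) (a : GK i₀ → ZMod 3),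
      Tw hi D u a → ShK hi a) →
    ∀ (n : ℕ) (x : Sha (ED (j D : K))), 3 ^ n • x = 0 → x = 0

/-- the data of S_TRF -/
def TrfData (K : Type) [Field K] [NumberField K] (j : Ei ≃+* 𝓞 K) (D : Ei)
    (e : AlgebraicClosure K ≃+* QB) (i₀ : QB) (hi : i₀ ^ 2 + i₀ + 1 = 0) (u : QB)
    (a : GK i₀ → ZMod 3)
    (Ψ : Pool.Agent.TH841.SH.D.Pt (ED (j D : K)) (AlgebraicClosure K) ≃+ Pt QB)
    (g : Pool.Agent.TH841.SH.D.Gal K ≃* GK i₀) : Prop :=
  Tw hi D u a ∧ (∀ z : Ei, e (algebraMap K (AlgebraicClosure K) (j z : K)) = ev i₀ hi z) ∧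
    Continuous g ∧ Continuous g.symm ∧
    (∀ (σ : Pool.Agent.TH841.SH.D.Gal K) (x : AlgebraicClosure K), e (σ x) = g σ (e x)) ∧
    (∀ (x y : AlgebraicClosure K) (h), ∃ h', Ψ (Affine.Point.some x y h) =
      Affine.Point.some (e x / u ^ 2) (e y / u ^ 3) h') ∧
    ∀ (σ : Pool.Agent.TH841.SH.D.Gal K)
      (P : Pool.Agent.TH841.SH.D.Pt (ED (j D : K)) (AlgebraicClosure K)),
      Ψ (Pool.Agent.TH841.SH.D.act (ED (j D : K)) σ.toAlgHom P) = act hi a (g σ) (Ψ P)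

/-- CTK-PLC: the completions of `K` and the fields `ℚ_p`. -/
def S_PLC : Prop := ∀ (K : Type) [Field K] [NumberField K] (v : HeightOneSpectrum (𝓞 K)),
  ∃ (p : ℕ) (_ : Fact p.Prime) (Φ : AlgebraicClosure (v.adicCompletion K) ≃+* PadicAlgCl p),
    ∀ τ : Pool.Agent.TH841.SH.D.Gal (v.adicCompletion K), ∃ τ' : Au p, ∀ x, Φ (τ x) = τ' (Φ x)

end Pool.Agent.R338.CK.S
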