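import Mathlib
import Pool.Agent.R338.CK.Stm
import Pool.Agent.Y682.Theta

/-! Copy of `Pool/Agent/Y811/CTK/PLC.lean` with lighter imports (and another name space); see the authors there. -/

/-!
# The completions of a number field are finite extensions of the fields `ℚ_p`
-/

set_option autoImplicit false

namespace Pool.Agent.R338.CK.Y811

open NumberField IsDedekindDomain
open Pool.Agent.Y703.CT
open Pool.Agent.Y715.T.Nr

section

variable {K : Type} [Field K] [NumberField K] {v : HeightOneSpectrum (𝓞 K)} {p : ℕ}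
  [hp : Fact p.Prime] (hpv : (p : 𝓞 K) ∈ v.asIdeal)

lemma pth_cont : Continuous (Pool.Agent.Y682.pth hpv) := by
  have h1 : Continuous (UniformSpace.Completion.extensionHom (Pool.Agent.Y682.gth v p)
      (Pool.Agent.Y682.gth_cont hpv)) := UniformSpace.Completion.continuous_extension
  have h2 : Continuous (Padic.withValRingEquiv (p := p)).symm :=
    (Padic.withValUniformEquiv (p := p)).symm.continuous
  exact h1.comp h2

lemma pth_alg : @Module.Finite ℚ_[p] (v.adicCompletion K) _ _
    (Pool.Agent.Y682.pth hpv).toAlgebra.toModule := by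
  let ψ := Pool.Agent.Y682.pth hpv
  let : Algebra ℚ_[p] (v.adicCompletion K) := ψ.toAlgebra
  have : ContinuousSMul ℚ_[p] (v.adicCompletion K) := by
    refine ⟨?_⟩
    have : (fun x : ℚ_[p] × v.adicCompletion K => x.1 • x.2) = fun x => ψ x.1 * x.2 := by
      funext x
      exact Algebra.smul_def _ _
    rw [this]
    exact ((pth_cont hpv).comp continuous_fst).mul continuous_snd
  let b := Module.finBasis ℚ K
  let W : Submodule ℚ_[p] (v.adicCompletion K) :=
    Submodule.span ℚ_[p] (Set.range fun i => algebraMap K (v.adicCompletion K) (b i))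
  have : FiniteDimensional ℚ_[p] W := FiniteDimensional.span_of_finite _ (Set.finite_range _)
  have hc : IsClosed (W : Set (v.adicCompletion K)) := Submodule.closed_of_finiteDimensional W
  have hK : ∀ x : K, algebraMap K (v.adicCompletion K) x ∈ W := by
    intro x
    rw [← b.sum_repr x, map_sum]
    refine sum_mem fun i _ => ?_
    rw [Algebra.smul_def, map_mul]
    have h : algebraMap K (v.adicCompletion K) (algebraMap ℚ K (b.repr x i)) =
        ψ (algebraMap ℚ ℚ_[p] (b.repr x i)) :=
      DFunLike.congr_fun (Subsingleton.elim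
        ((algebraMap K (v.adicCompletion K)).comp (algebraMap ℚ K))
        (ψ.comp (algebraMap ℚ ℚ_[p]))) _
    rw [h]
    have h2 : ψ (algebraMap ℚ ℚ_[p] (b.repr x i)) * algebraMap K (v.adicCompletion K) (b i) =
        (algebraMap ℚ ℚ_[p] (b.repr x i)) • algebraMap K (v.adicCompletion K) (b i) :=
      (Algebra.smul_def _ _).symm
    rw [h2]
    exact W.smul_mem _ (Submodule.subset_span ⟨i, rfl⟩)
  have ht : W = ⊤ := by
    rw [eq_top_iff]
    intro x _
    have hd := v.denseRange_algebraMap K x
    exact hc.closure_subset_iff.2 (by rintro _ ⟨y, rfl⟩; exact hK y) hd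
  have : Module.Finite ℚ_[p] (⊤ : Submodule ℚ_[p] (v.adicCompletion K)) := by
    rw [← ht]; infer_instance
  exact Module.Finite.equiv (Submodule.topEquiv (R := ℚ_[p]) (M := v.adicCompletion K))

end

theorem t_PLC : Pool.Agent.R338.CK.S.S_PLC := by
  intro K _ _ v
  obtain ⟨p, hp, hpv⟩ := Pool.Agent.Y682.exists_prime_mem v
  have : Fact p.Prime := ⟨hp⟩
  refine ⟨p, ⟨hp⟩, ?_⟩
  let ψ := Pool.Agent.Y682.pth hpv
  let i1 : Algebra ℚ_[p] (v.adicCompletion K) := ψ.toAlgebra
  have : Module.Finite ℚ_[p] (v.adicCompletion K) := pth_alg hpv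
  have : Algebra.IsAlgebraic ℚ_[p] (v.adicCompletion K) := Algebra.IsAlgebraic.of_finite _ _
  have : Algebra.IsAlgebraic ℚ_[p] (AlgebraicClosure (v.adicCompletion K)) :=
    Algebra.IsAlgebraic.trans ℚ_[p] (v.adicCompletion K) _
  have : IsAlgClosure ℚ_[p] (AlgebraicClosure (v.adicCompletion K)) :=
    ⟨inferInstance, inferInstance⟩
  let Φ : AlgebraicClosure (v.adicCompletion K) ≃ₐ[ℚ_[p]] PadicAlgCl p :=
    IsAlgClosure.equiv ℚ_[p] _ _
  refine ⟨Φ.toRingEquiv, fun τ => ⟨(Φ.symm.trans (τ.restrictScalars ℚ_[p])).trans Φ, fun x => ?_⟩⟩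
  change Φ (τ x) = Φ (τ (Φ.symm (Φ x)))
  rw [AlgEquiv.symm_apply_apply]

end Pool.Agent.R338.CK.Y811
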