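import Pool.Agent.R338.CK.Stm
import Pool.Agent.Y737.CTK.TrfA

/-! Copy of `Pool/Agent/Y954/CTK/SHC.lean` with lighter imports (and another name space); see the authors there. -/

/-!
# CTK-SHC: the Tate-Shafarevich group of `y² + D y = x³` over `K` and the twisted cocycles
-/

set_option autoImplicit false

open scoped Classical

namespace Pool.Agent.R338.CK.Y954

open NumberField IsDedekindDomain WeierstrassCurve
open Pool.Agent.Y692.QS (Ei w nr toC)
open Pool.Agent.Y703.CT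
open Pool.Agent.Y715.T.Gi Pool.Agent.Y715.T.Nr Pool.Agent.Y715.T.Df Pool.Agent.Y715.T.Ell
open Pool.Agent.TH841.NF (Sc tF tF_zero tF_some tF_add ns_iff)
open Pool.Agent.TH841.NF.D (Sha)
open Pool.Agent.TH841.SH.D (Gal Coch IsCoc LocTriv cob)
open Pool.Agent.Y737.CTK (tF_inj it_some)
open Pool.Agent.R338.CK.S

lemma pt_ext {F : Type} [Field F] {W : WeierstrassCurve F} {x y x' y' : F}
    (h : W.toAffine.Nonsingular x y) (h' : W.toAffine.Nonsingular x' y') (hx : x = x')
    (hy : y = y') : (Affine.Point.some x y h : W.toAffine.Point) = .some x' y' h' := by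
  subst hx hy
  rfl

section loc

variable {K : Type} [Field K] {d : K} {e : AlgebraicClosure K ≃+* QB} {i₀ : QB}
  (hi : i₀ ^ 2 + i₀ + 1 = 0) {u : QB} {a : GK i₀ → ZMod 3}
  (hu0 : u ≠ 0) (hu : u ^ 3 = e (algebraMap K (AlgebraicClosure K) d))
  (ha : ∀ σ : GK i₀, σ u = i₀ ^ (-a σ).val * u)
  {Ψ : Pool.Agent.TH841.SH.D.Pt (ED d) (AlgebraicClosure K) ≃+ Pt QB}
  {g : Gal K ≃* GK i₀}
  (hge : ∀ (σ : Gal K) (x : AlgebraicClosure K), e (σ x) = g σ (e x))
  (hΨ : ∀ (x y : AlgebraicClosure K) (h), ∃ h', Ψ (Affine.Point.some x y h) =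
      Affine.Point.some (e x / u ^ 2) (e y / u ^ 3) h')
  {M : Type} [Field M] [Algebra K M] {p : ℕ} [Fact p.Prime]
  (Φ : AlgebraicClosure M ≃+* PadicAlgCl p)
  (ι' : AlgebraicClosure K →ₐ[K] AlgebraicClosure M)

/-- the embedding -/
noncomputable def io : QB →ₐ[ℚ] PadicAlgCl p :=
  RingHom.toRatAlgHom (((Φ : AlgebraicClosure M →+* PadicAlgCl p).comp
    (ι' : AlgebraicClosure K →+* AlgebraicClosure M)).comp (e.symm : QB →+* AlgebraicClosure K))

variable (e) in
lemma io_apply (x : QB) : io (e := e) Φ ι' x = Φ (ι' (e.symm x)) := rfl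

include hu0 hu in
lemma scl : Sc (Φ.symm : PadicAlgCl p →+* AlgebraicClosure M) (ι' (e.symm u))
    (W0.baseChange (PadicAlgCl p)) ((ED d).baseChange (AlgebraicClosure M)) where
  hu := by
    intro h
    apply hu0
    have h1 : e.symm u = 0 := (map_eq_zero_iff ι' ι'.injective).1 h
    exact (map_eq_zero_iff e.symm e.symm.injective).1 h1
  h1 := by
    show algebraMap K _ 0 = Φ.symm (algebraMap ℚ _ 0) * _
    simp
  h2 := by
    show algebraMap K _ 0 = Φ.symm (algebraMap ℚ _ 0) * _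
    simp
  h3 := by
    show algebraMap K _ d = Φ.symm (algebraMap ℚ _ 1) * (ι' (e.symm u)) ^ 3
    rw [map_one, map_one, one_mul, ← map_pow, ← map_pow, hu, RingEquiv.symm_apply_apply,
      AlgHom.commutes]
  h4 := by
    show algebraMap K _ 0 = Φ.symm (algebraMap ℚ _ 0) * _
    simp
  h6 := by
    show algebraMap K _ 0 = Φ.symm (algebraMap ℚ _ 0) * _
    simp

variable (S : Sc (Φ.symm : PadicAlgCl p →+* AlgebraicClosure M) (ι' (e.symm u))
    (W0.baseChange (PadicAlgCl p)) ((ED d).baseChange (AlgebraicClosure M)))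

/-- the transfer -/
noncomputable def Th : Pt (PadicAlgCl p) →+
    Pool.Agent.TH841.SH.D.Pt (ED d) (AlgebraicClosure M) :=
  ⟨⟨tF S, rfl⟩, tF_add S⟩

lemma Th_some (x y : PadicAlgCl p) (hn : (W0.baseChange (PadicAlgCl p)).toAffine.Nonsingular x y) :
    Th Φ ι' S (.some x y hn) = Affine.Point.some (Φ.symm x * (ι' (e.symm u)) ^ 2)
      (Φ.symm y * (ι' (e.symm u)) ^ 3) ((ns_iff S x y).2 hn) := rfl

include hu0 hΨ in
/-- the embedding of the geometric points -/
lemma act_emb (Q : Pool.Agent.TH841.SH.D.Pt (ED d) (AlgebraicClosure K)) :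
    Pool.Agent.TH841.SH.D.act (ED d) ι' Q = Th Φ ι' S (pm (io (e := e) Φ ι') (Ψ Q)) := by
  rcases Q with _ | ⟨x, y, hn⟩
  · show Pool.Agent.TH841.SH.D.act (ED d) ι' 0 = Th Φ ι' S (pm (io (e := e) Φ ι') (Ψ 0))
    rw [map_zero, map_zero, map_zero, map_zero]
  · obtain ⟨h', e1⟩ := hΨ x y hn
    refine Eq.trans ?_ (congrArg (fun R => Th Φ ι' S (pm (io (e := e) Φ ι') R)) e1).symm
    have hu1 : e.symm u ≠ 0 := fun h => hu0 ((map_eq_zero_iff e.symm e.symm.injective).1 h)
    have hu2 : ι' (e.symm u) ≠ 0 := fun h => hu1 ((map_eq_zero_iff ι' ι'.injective).1 h)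
    refine pt_ext _ _ ?_ ?_
    · show ι' x = Φ.symm (Φ (ι' (e.symm (e x / u ^ 2)))) * (ι' (e.symm u)) ^ 2
      rw [RingEquiv.symm_apply_apply, map_div₀, RingEquiv.symm_apply_apply, map_div₀, map_pow,
        map_pow, div_mul_cancel₀ _ (pow_ne_zero 2 hu2)]
    · show ι' y = Φ.symm (Φ (ι' (e.symm (e y / u ^ 3)))) * (ι' (e.symm u)) ^ 3
      rw [RingEquiv.symm_apply_apply, map_div₀, RingEquiv.symm_apply_apply, map_div₀, map_pow,
        map_pow, div_mul_cancel₀ _ (pow_ne_zero 3 hu2)]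

include hge in
lemma cmp {τ : Gal M} {τ' : Au p} (hτ : ∀ x, Φ (τ x) = τ' (Φ x)) {σ : Gal K}
    (h : ∀ x, τ (ι' x) = ι' (σ x)) : Cmp (io (e := e) Φ ι') τ' (g σ) := by
  intro x
  show τ' (Φ (ι' (e.symm x))) = Φ (ι' (e.symm (g σ x)))
  rw [← hτ, h]
  congr 2
  apply e.injective
  rw [hge, RingEquiv.apply_symm_apply, RingEquiv.apply_symm_apply]

include ha hge in
/-- the local action -/
lemma act_loc {τ : Gal M} {τ' : Au p} (hτ : ∀ x, Φ (τ x) = τ' (Φ x)) {σ : Gal K}
    (h : ∀ x, τ (ι' x) = ι' (σ x)) (R : Pt (PadicAlgCl p)) :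
    Pool.Agent.TH841.SH.D.act (ED d) (τ.toAlgHom.restrictScalars K) (Th Φ ι' S R) =
      Th Φ ι' S (jj (iota_sq' hi (io (e := e) Φ ι')) (a (g σ)) (pm (lh τ') R)) := by
  rcases R with _ | ⟨x, y, hn⟩
  · show Pool.Agent.TH841.SH.D.act (ED d) (τ.toAlgHom.restrictScalars K) (Th Φ ι' S 0) =
      Th Φ ι' S (jj (iota_sq' hi (io (e := e) Φ ι')) (a (g σ)) (pm (lh τ') 0))
    rw [map_zero, map_zero, map_zero]
    unfold jj
    rw [Function.iterate_fixed (map_zero _) _, map_zero]
  · have hn2 : (W0.baseChange (PadicAlgCl p)).toAffine.Nonsingular (lh τ' x) (lh τ' y) :=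
      (Affine.baseChange_nonsingular W0.toAffine (lh τ').injective ..).mpr hn
    obtain ⟨h4, e3⟩ := it_some (iota_sq' hi (io (e := e) Φ ι')) (a (g σ)).val hn2
    have e2 : jj (iota_sq' hi (io (e := e) Φ ι')) (a (g σ)) (pm (lh τ') (.some x y hn)) =
      .some ((io (e := e) Φ ι' i₀) ^ (a (g σ)).val * lh τ' x) (lh τ' y) h4 := e3
    rw [e2]
    have hτx : ∀ z, Φ.symm (lh τ' z) = τ (Φ.symm z) := by
      intro z
      rw [RingEquiv.symm_apply_eq, hτ, RingEquiv.apply_symm_apply]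
      rfl
    have hτu : τ (ι' (e.symm u)) = (ι' (e.symm i₀)) ^ (-a (g σ)).val * ι' (e.symm u) := by
      rw [h, ← map_pow, ← map_pow, ← map_mul, ← map_mul, ← ha]
      congr 1
      apply e.injective
      rw [hge, RingEquiv.apply_symm_apply, RingEquiv.apply_symm_apply]
    have hI3 : (ι' (e.symm i₀)) ^ 3 = 1 := by
      rw [← map_pow, ← map_pow, i₀_cube hi, map_one, map_one]
    have e4 : ∀ c : ZMod 3, ((ι' (e.symm i₀)) ^ (-c).val) ^ 2 = (ι' (e.symm i₀)) ^ c.val := by
      intro c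
      rcases z3 c with rfl | rfl | rfl
      · simp
      · have a1 : (-1 : ZMod 3).val = 2 := by decide
        have a2 : (1 : ZMod 3).val = 1 := by decide
        rw [a1, a2]
        linear_combination (ι' (e.symm i₀)) * hI3
      · have a1 : (-1 : ZMod 3).val = 2 := by decide
        have a2 : (1 : ZMod 3).val = 1 := by decide
        rw [neg_neg, a1, a2]
        ring
    refine pt_ext _ _ ?_ ?_
    · show τ (Φ.symm x * (ι' (e.symm u)) ^ 2) =
        Φ.symm ((Φ (ι' (e.symm i₀))) ^ (a (g σ)).val * lh τ' x) * (ι' (e.symm u)) ^ 2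
      rw [map_mul, map_pow, hτu, map_mul, map_pow, RingEquiv.symm_apply_apply, hτx, mul_pow, e4]
      ring
    · show τ (Φ.symm y * (ι' (e.symm u)) ^ 3) = Φ.symm (lh τ' y) * (ι' (e.symm u)) ^ 3
      rw [map_mul, map_pow, hτu, hτx, mul_pow, ← pow_mul, mul_comm _ 3, pow_mul, hI3, one_pow,
        one_mul]

end loc

section inf

variable {K : Type} [Field K] [NumberField K]

lemma not_real {z : K} (hz : z ^ 2 + z + 1 = 0) (v : InfinitePlace K) : v.IsComplex := by
  rw [← InfinitePlace.not_isReal_iff_isComplex]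
  intro hr
  have h1 := congrArg (InfinitePlace.embedding_of_isReal hr) hz
  rw [map_add, map_add, map_pow, map_one, map_zero] at h1
  nlinarith [sq_nonneg (2 * InfinitePlace.embedding_of_isReal hr z + 1)]

/-- the places at infinity -/
lemma loc_inf {z : K} (hz : z ^ 2 + z + 1 = 0) (v : InfinitePlace K) (W : WeierstrassCurve K)
    {F : Coch W} (h1 : F 1 = 0) : LocTriv W v.Completion F := by
  have hc := not_real hz v
  have hac : IsAlgClosed v.Completion :=
    IsAlgClosed.of_ringEquiv ℂ v.Completion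
      (InfinitePlace.Completion.ringEquivComplexOfIsComplex hc).symm
  intro ι'
  refine ⟨0, fun τ σ h => ?_⟩
  have h2 : ∀ y, τ y = y := by
    intro y
    obtain ⟨x, rfl⟩ := (IsAlgClosed.algebraMap_bijective_of_isIntegral
      (k := v.Completion) (K := AlgebraicClosure v.Completion)).2 y
    exact τ.commutes x
  have h3 : σ = 1 := by
    refine AlgEquiv.ext fun x => ι'.injective ?_
    have h4 : ι' (σ x) = ι' x := by rw [← h, h2]
    exact h4
  rw [h3, h1, map_zero, map_zero, sub_zero]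

end inf

end Pool.Agent.R338.CK.Y954
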