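import Pool.Agent.R338.CK.Stm
import Pool.Agent.Y363.CT.SELC
import Pool.Agent.Y180.CT.Loc3
import Pool.Agent.Y153.CT.RAM
import Pool.Agent.Y319.CT.FF
import Pool.Agent.Y379.CT.Cub
import Pool.Agent.Y100.CT.CUB3
import Pool.Agent.Y674.CT.PT
import Pool.Agent.Y379.CT.Ramc
import Pool.Agent.Y155.CT.Mwk
import Pool.Agent.Y155.CT.Act

/-! Copy of `Pool/Agent/Y696/XL/Sel.lean` with lighter imports (and another name space); see the authors there. -/

/-!
# Project XL: the order of the Selmer group of the isogeny of degree three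

For every `D` of the class the characters `h` with values in `Z/3` for which `σ ↦ h(σ) T` is locally
trivial at all places are in bijection with the kernel of the Laplacian.
-/

set_option autoImplicit false
set_option linter.unusedSectionVars false

open scoped Classical

namespace Pool.Agent.R338.CK.XL6

open Pool.Agent.Y692.QS (Ei w nr)
open Pool.Agent.Y715.T.Gi Pool.Agent.Y715.T.Nr Pool.Agent.Y715.T.Df
open Pool.Agent.Y715.T.Rec (cs)
open Pool.Agent.Y715.T.RecG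
open Pool.Agent.Y715.T.Sel (fac kc_mul kc_one kc_congr kc_pow kc_cube kc_uniq kc_cancel kc_unit
  kc_exp ex_root root_ne iota_sq iota_ev odd_of not_dvd_of_unr resid_kc exists_emb3)
open Pool.Agent.Y48.CT.SEL (p0 pr0 esq prod_form cf_prod not_assoc_lam support not_dvd_prod)
open Pool.Agent.Y363.CT.SELC (exists_tw not_lt_prod)
open Pool.Agent.Y155.CT (a_mul a_cont)
open Pool.Agent.Y703.CT

/-- the kernel of the Laplacian -/
def KerV {J : Type} [Fintype J] (π : J → Ei) (e : J → ZMod 3) : Set (J → ZMod 3) :=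
  {v | ∀ j, ∑ i, e i * cs (π j) (π i) * (v i - v j) = 0}

/-- the Selmer characters -/
def SelH {i₀ : QB} (hi : i₀ ^ 2 + i₀ + 1 = 0) (a : GK i₀ → ZMod 3) : Set (GK i₀ → ZMod 3) :=
  {h | IsLocallyConstant h ∧ (∀ σ τ, h (σ * τ) = h σ + h τ) ∧
    ∀ (p : ℕ) [Fact p.Prime] (ι : QB →ₐ[ℚ] PadicAlgCl p), ∃ R, St1 hi ι a h R}

variable {J : Type} [Fintype J] {π : J → Ei} {e : J → ZMod 3}
variable {i₀ : QB} {hi : i₀ ^ 2 + i₀ + 1 = 0}

/-- a Selmer character comes from the kernel (from the proof of CT-SEL) -/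
theorem sel_ker (hLOC : S_LOC3) (hRAM : S_RAM) (hUNR : S_UNR) (hD : Dt π e)
    (h9 : ¬ (9 : ℤ) ∣ nr (pD π e) - 1) {u : QB} {a : GK i₀ → ZMod 3} (hTw : Tw hi (pD π e) u a)
    {h : GK i₀ → ZMod 3} (hs : h ∈ SelH hi a) :
    ∃ v ∈ KerV π e, Kc hi (∏ j, π j ^ (e j * v j).val) h := by
  obtain ⟨hc, hm, hloc⟩ := hs
  -- the character `a`
  have hb : Kc hi (∏ j, π j ^ (e j).val) (fun σ => -a σ) :=
    kc_of hi (root_ne (hi := hi) (z := pD π e) (pr0 hD _) hTw.cube) hTw.cube hTw.act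
  -- the Kummer generator
  obtain ⟨z, hz, hzh⟩ := kum hi h hc hm
  obtain ⟨v₀, g, x, hu, ez⟩ := fac (π := π) z hz.1 (support hD hz hzh
    (fun p _ ι hp3 hpj τ σ hcc hτ => by
      obtain ⟨R, hR⟩ := hloc p ι
      exact (hUNR J π e hD i₀ hi u a hTw h p ι hp3 hpj R hR τ σ hcc hτ).2))
  rw [ez] at hzh
  obtain ⟨ι₃⟩ := exists_emb3
  obtain ⟨q, hq⟩ := prod_form hD x
  have hq' : ∏ j, π j ^ x j = 1 + 3 * q := by rw [← hq]; ring
  have hx : Kc hi (∏ j, π j ^ x j) h := by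
    obtain ⟨R, hR⟩ := hloc 3 ι₃
    have hzh' := hzh
    rw [hq'] at hzh'
    obtain ⟨⟨g', hg'⟩, hu1⟩ := hLOC i₀ hi (pD π e) (prod_form hD _) h9 u a hTw h v₀ q g hu hzh'
      inferInstance ι₃ R hR
    refine kc_unit (pr0 hD _) hu1 (kc_cancel (z' := lam ^ g') ?_
      (pow_ne_zero _ prime_lam.ne_zero) ?_)
    · exact mul_ne_zero hu.ne_zero (pr0 hD _)
    · have e1 : v₀ * (∏ j, π j ^ x j) * (lam ^ g') ^ 3 = v₀ * lam ^ g * ∏ j, π j ^ x j := by
        rw [hg', ← pow_mul, mul_comm g' 3]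
        ring
      rw [e1]
      exact hzh
  set v : J → ZMod 3 := fun j => x j * e j with hv
  have hxv : ∀ j, (x j : ZMod 3) = e j * v j := by
    intro j
    have := esq hD j
    calc (x j : ZMod 3) = x j * (e j * e j) := by rw [this, mul_one]
      _ = _ := by rw [hv]; ring
  have heq : ∀ j, ∑ i, e i * cs (π j) (π i) * (v i - v j) = 0 := by
    intro j
    obtain ⟨p, hp, ι, hl⟩ := exists_emb hi (hD.pq j).prime
    have hp3 := odd_of hi ι (hD.pq j).prime hl (not_assoc_lam (hD.pq j))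
    obtain ⟨R, hR⟩ := hloc p ι
    obtain ⟨ε, hε⟩ := hRAM J π e hD i₀ hi u a hTw h j p ι hl R hR
    -- the character that is trivial at `π j`
    set n : ℕ := ε.val with hn
    have hn3 : (n : ZMod 3) = ε := ZMod.natCast_zmod_val _
    have hy := kc_mul (pr0 hD x) (pow_ne_zero n (pr0 hD _)) hx (kc_pow (pr0 hD _) hb n)
    have hy1 : ∀ (τ : Au p) (σ : GK i₀), Cmp ι τ σ → h σ + n * -a σ = 0 := by
      intro τ σ hcc
      rw [hε τ σ hcc, hn3]
      ring
    have ey : (∏ i, π i ^ x i) * (∏ i, π i ^ (e i).val) ^ n =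
        ∏ i, π i ^ (x i + (e i).val * n) := by
      rw [← Finset.prod_pow, ← Finset.prod_mul_distrib]
      refine Finset.prod_congr rfl fun i _ => ?_
      rw [← pow_mul, ← pow_add]
    rw [ey] at hy
    set y : J → ZMod 3 := fun i => x i + e i * ε with hydef
    have hy2 : Kc hi (∏ i, π i ^ (y i).val) (fun σ => h σ + n * -a σ) := by
      refine kc_exp (p0 hD) (fun i => ?_) hy
      rw [ZMod.natCast_zmod_val, hydef]
      push_cast
      rw [hn3, ZMod.natCast_zmod_val]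
    have hyj : y j = 0 := by
      have h1 := not_dvd_of_unr (cf_prod hD y) hy2 hp3 ι (hD.pq j).prime hl
        (fun τ σ hcc _ => hy1 τ σ hcc)
      by_contra hne
      apply h1
      refine dvd_trans (dvd_pow_self (π j) ?_) (Finset.dvd_prod_of_mem
        (fun i => π i ^ (y i).val) (Finset.mem_univ j))
      rwa [Ne, ZMod.val_eq_zero]
    have hεv : ε = -v j := by
      have h1 : (x j : ZMod 3) + e j * ε = 0 := hyj
      have h2 := esq hD j
      rw [hxv j] at h1
      calc ε = (e j * e j) * ε := by rw [h2, one_mul]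
        _ = e j * (e j * v j + e j * ε) - (e j * e j) * v j := by ring
        _ = _ := by rw [h1, h2]; ring
    have hyi : ∀ i, y i = e i * (v i - v j) := by
      intro i
      rw [hydef]
      change (x i : ZMod 3) + e i * ε = _
      rw [hxv i, hεv]
      ring
    have e2 : ∏ i, π i ^ (y i).val = ∏ i ∈ Finset.univ.erase j, π i ^ (y i).val := by
      rw [← Finset.mul_prod_erase Finset.univ (fun i => π i ^ (y i).val) (Finset.mem_univ j),
        hyj, ZMod.val_zero, pow_zero, one_mul]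
    rw [e2] at hy2
    have hcube := resid_kc hy2 hp3 ι (hD.pq j).prime hl hy1
    have hnd := not_dvd_prod hD j (fun i => (y i).val)
    have h9 := (hD.pq j).norm
    have hpj := (hD.pq j).prime
    have hcs := (cs_zero_iff hpj h9 hnd).2 hcube
    have hnd1 : ∀ i ∈ Finset.univ.erase j, ¬ π j ∣ π i := fun i hij =>
      hD.nd i j (Finset.ne_of_mem_erase hij)
    rw [cs_prod hpj h9 _ _ (fun i hij h1 => hnd1 i hij (hpj.dvd_of_dvd_pow h1))] at hcs
    rw [← Finset.add_sum_erase Finset.univ _ (Finset.mem_univ j), sub_self, mul_zero, zero_add,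
      ← hcs]
    refine Finset.sum_congr rfl fun i hij => ?_
    rw [cs_pow hpj h9 (hnd1 i hij), ZMod.natCast_zmod_val, hyi i]
    ring
  refine ⟨v, heq, kc_exp (p0 hD) (fun j => ?_) hx⟩
  rw [hxv j, ZMod.natCast_zmod_val]

/-- the kernel gives Selmer characters (from the proof of CT-SELC) -/
theorem ker_sel (hFF : S_FF) (hCUB : S_CUB) (hCUB3 : S_CUB3) (hPT : S_PT) (hRAMC : S_RAMC)
    (hD : Dt π e) (h9 : ¬ (9 : ℤ) ∣ nr (pD π e) - 1) {u : QB} {a : GK i₀ → ZMod 3}
    (hTw : Tw hi (pD π e) u a) {v : J → ZMod 3} (hv : v ∈ KerV π e) :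
    ∃ h ∈ SelH hi a, Kc hi (∏ j, π j ^ (e j * v j).val) h := by
  have hB0 : (∏ j, π j ^ (e j * v j).val) ≠ 0 := pr0 hD _
  have hD0 : pD π e ≠ 0 := pr0 hD _
  obtain ⟨β, a', hTw'⟩ := exists_tw (hi := hi) (∏ j, π j ^ (e j * v j).val)
  have hm : ∀ σ τ : GK i₀, -a' (σ * τ) = -a' σ + -a' τ := by
    intro σ τ
    rw [a_mul hB0 hTw' σ τ]
    ring
  have hc : IsLocallyConstant (fun σ : GK i₀ => -a' σ) :=
    (a_cont hB0 hTw').comp (fun c : ZMod 3 => -c)
  have hKc : Kc hi (∏ j, π j ^ (e j * v j).val) (fun σ => -a' σ) :=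
    kc_of hi (root_ne (hi := hi) hB0 hTw'.cube) hTw'.cube hTw'.act
  have hloc : ∀ (p : ℕ) [Fact p.Prime] (ι : QB →ₐ[ℚ] PadicAlgCl p),
      ∃ R, St1 hi ι a (fun σ => -a' σ) R := by
    intro p _ ι
    by_cases hp3 : p = 3
    · subst hp3
      exact hPT i₀ hi _ _ hB0 hD0 u a hTw _ hKc 3 ι
        (hCUB3 inferInstance (ι i₀) (iota_sq' hi ι) _ _ (prod_form hD _) (prod_form hD _) h9)
    · by_cases hj : ∃ j, ‖ι (ev i₀ hi (π j))‖ < 1
      · obtain ⟨j, hj⟩ := hj
        exact hRAMC J π e hD i₀ hi u a hTw v _ hKc j (hv j) p ι hj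
      · have hj' : ∀ j, ¬ ‖ev (ι i₀) (iota_sq' hi ι) (π j)‖ < 1 := by
          intro j h1
          apply hj
          refine ⟨j, ?_⟩
          rw [iota_ev]
          exact h1
        exact hPT i₀ hi _ _ hB0 hD0 u a hTw _ hKc p ι
          (hCUB hFF p hp3 (ι i₀) (iota_sq' hi ι) _ _ (not_lt_prod _ hj' _)
            (not_lt_prod _ hj' _))
  exact ⟨_, ⟨hc, hm, hloc⟩, hKc⟩

/-- the element of the kernel is determined by the character -/
theorem ker_uniq (hD : Dt π e) {v v' : J → ZMod 3} {h : GK i₀ → ZMod 3}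
    (h1 : Kc hi (∏ j, π j ^ (e j * v j).val) h) (h2 : Kc hi (∏ j, π j ^ (e j * v' j).val) h) :
    v = v' := by
  have hy := kc_mul (pr0 hD _) (pow_ne_zero 2 (pr0 hD _)) h1 (kc_pow (pr0 hD _) h2 2)
  have ey : (∏ j, π j ^ (e j * v j).val) * (∏ i, π i ^ (e i * v' i).val) ^ 2 =
      ∏ i, π i ^ ((e i * v i).val + (e i * v' i).val * 2) := by
    rw [← Finset.prod_pow, ← Finset.prod_mul_distrib]
    refine Finset.prod_congr rfl fun i _ => ?_
    rw [← pow_mul, ← pow_add]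
  rw [ey] at hy
  have hy2 : Kc hi (∏ i, π i ^ (e i * (v i - v' i)).val)
      (fun σ => h σ + ((2 : ℕ) : ZMod 3) * h σ) := by
    refine kc_exp (p0 hD) (fun i => ?_) hy
    push_cast
    rw [ZMod.natCast_zmod_val, ZMod.natCast_zmod_val, ZMod.natCast_zmod_val]
    have : (3 : ZMod 3) = 0 := by decide
    linear_combination (e i * v' i) * this
  have hy3 : ∀ σ : GK i₀, h σ + ((2 : ℕ) : ZMod 3) * h σ = 0 := by
    intro σ
    have : (3 : ZMod 3) = 0 := by decide
    push_cast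
    linear_combination (h σ) * this
  funext j
  obtain ⟨p, hp, ι, hl⟩ := exists_emb hi (hD.pq j).prime
  have hp3 := odd_of hi ι (hD.pq j).prime hl (not_assoc_lam (hD.pq j))
  have h3 := not_dvd_of_unr (cf_prod hD (fun i => e i * (v i - v' i))) hy2 hp3 ι
    (hD.pq j).prime hl (fun τ σ _ _ => hy3 σ)
  have hyj : e j * (v j - v' j) = 0 := by
    by_contra hne'
    apply h3
    refine dvd_trans (dvd_pow_self (π j) ?_) (Finset.dvd_prod_of_mem
      (fun i => π i ^ (e i * (v i - v' i)).val) (Finset.mem_univ j))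
    rwa [Ne, ZMod.val_eq_zero]
  have h4 := esq hD j
  have h5 : v j - v' j = 0 := by
    calc v j - v' j = (e j * e j) * (v j - v' j) := by rw [h4, one_mul]
      _ = e j * (e j * (v j - v' j)) := by ring
      _ = 0 := by rw [hyj, mul_zero]
  exact sub_eq_zero.1 h5

/-- **The order of the Selmer group.** -/
theorem sel_card (hD : Dt π e) (h9 : ¬ (9 : ℤ) ∣ nr (pD π e) - 1) {u : QB} {a : GK i₀ → ZMod 3}
    (hTw : Tw hi (pD π e) u a) : (SelH hi a).ncard = (KerV π e).ncard := by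
  have h1 : ∀ h : GK i₀ → ZMod 3, h ∈ SelH hi a →
      ∃ v ∈ KerV π e, Kc hi (∏ j, π j ^ (e j * v j).val) h := fun h hs =>
    sel_ker Pool.Agent.Y180.CT.t_loc3 Pool.Agent.Y153.CTRAM.t_RAM Pool.Agent.Y153.CTRAM.t_UNR
      hD h9 hTw hs
  have h2 : ∀ v : J → ZMod 3, v ∈ KerV π e →
      ∃ h ∈ SelH hi a, Kc hi (∏ j, π j ^ (e j * v j).val) h := fun v hv =>
    ker_sel Pool.Agent.Y319.CT.t_FF Pool.Agent.Y379.CT.t_CUB Pool.Agent.Y100.CT.CUB3.t_cub3
      Pool.Agent.Y674.CT.t_PT Pool.Agent.Y379.CT.t_RAMC hD h9 hTw hv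
  choose! f hf1 hf2 using h2
  symm
  refine Set.ncard_congr (fun v _ => f v) (fun v hv => hf1 v hv) (fun v v' hv hv' h => ?_)
    fun h hs => ?_
  · exact ker_uniq (hi := hi) hD (hf2 v hv) (by rw [h]; exact hf2 v' hv')
  · obtain ⟨v, hv, hk⟩ := h1 h hs
    exact ⟨v, hv, funext fun σ => kc_uniq (pr0 hD _) (hf2 v hv) hk σ⟩

end Pool.Agent.R338.CK.XL6
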