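import Pool.Agent.R338.CK.Lap
import Pool.Agent.R338.CK.Sel
import Pool.Agent.Y363.XK.Bil
import Pool.Agent.Y710.XK.EQ
import Pool.Agent.Y699.E.Jsum
import Pool.Agent.Y350.CT.REC
import Pool.Agent.Y274.CT.ExiCnt

/-! The exact proportion of the tuples of Eisenstein primes with a given number of solutions. Bilinear
sums: helper363; equidistribution: helper710; plan: helper703. -/

set_option autoImplicit false

open scoped Classical

namespace Pool.Agent.R338.CK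

open Finset Pool.Agent.Y703.XK
open Pool.Agent.Y692.QS (Ei w nr toC)
open Pool.Agent.Y715.T.Rec (cs)
open Pool.Agent.Y715.T.RecG (Pq)
open Pool.Agent.Y699.E (ez nrm QB mem_QB PS_prod SB mem_SB card_SB_le)
open Pool.Agent.Y703.CT (Dt pD)
open Pool.Agent.R338.CK.XL6 (KerV)

/-- disjoint sets of primary primes of norm up to `X i` -/
structure Sets {m : ℕ} (P : Fin (m + 1) → Finset Ei) (X : Fin (m + 1) → ℕ) (z : ℕ) : Prop where
  one : 1 ≤ z
  le : ∀ i, z ≤ X i
  mem : ∀ i, ∀ π ∈ P i, Pq π ∧ nrm π ≤ X i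
  dis : ∀ i l, i ≠ l → Disjoint (P i) (P l)

theorem root {C z A N : ℝ} (hC : 0 < C) (hz : 0 < z) (hA : 0 ≤ A)
    (h : N ^ 24 * z ≤ C * A ^ 24) :
    N ≤ C ^ (1 / 24 : ℝ) * z ^ (-(1 / 24 : ℝ)) * A := by
  have h2 : N ^ 24 ≤ C * z⁻¹ * A ^ 24 := by
    rw [← div_eq_mul_inv, div_mul_eq_mul_div, le_div_iff₀ hz]
    exact h
  have h3 : (C ^ (1 / 24 : ℝ) * z ^ (-(1 / 24 : ℝ)) * A) ^ 24 = C * z⁻¹ * A ^ 24 := by
    rw [mul_pow, mul_pow, ← Real.rpow_natCast (C ^ (1 / 24 : ℝ)) 24,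
      ← Real.rpow_natCast (z ^ (-(1 / 24 : ℝ))) 24, ← Real.rpow_mul hC.le,
      ← Real.rpow_mul hz.le]
    norm_num
    left
    rw [Real.rpow_neg_one]
    exact Or.inl rfl
  rw [← h3] at h2
  exact le_of_pow_le_pow_left₀ (by norm_num) (by positivity) h2

theorem card_QB_le {V : ℕ} (hV : 1 ≤ V) : (QB V).card ≤ 16 * V := by
  have h1 : QB V ⊆ SB V := by
    intro π hπ
    rw [mem_QB] at hπ
    rw [mem_SB]
    refine ⟨hπ.1, ?_⟩
    have h2 := (PS_prod (S := {π}) (fun ρ hρ => by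
      rw [Finset.mem_singleton] at hρ
      rw [hρ]
      exact hπ.2)).1
    rwa [Finset.prod_singleton] at h2
  have h2 := (Finset.card_le_card h1)
  have h3 := card_SB_le hV
  have h4 : ((QB V).card : ℝ) ≤ 16 * V := le_trans (by exact_mod_cast h2) h3
  exact_mod_cast h4

theorem HB_of : ∃ C : ℝ, 1 ≤ C ∧ ∀ (m : ℕ) (P : Fin (m + 1) → Finset Ei) (X : Fin (m + 1) → ℕ)
    (z : ℕ), Sets P X z → HB P (fun i => 16 * X i) (C * (z : ℝ) ^ (-(1 / 24 : ℝ))) := by
  obtain ⟨C, hC1, hC⟩ := Pool.Agent.Y363.XK.t_BIL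
  have hC0 : (0 : ℝ) < C := by linarith
  refine ⟨C ^ (1 / 24 : ℝ), Real.one_le_rpow hC1 (by norm_num), ?_⟩
  intro m P X z hS i l hil a c d ha hc hd
  have hz0 : (0 : ℝ) < z := by exact_mod_cast hS.one
  have h1 := root hC0 hz0 (by positivity) (hC (P i) (P l) (X i) (X l) z c d a (hS.mem i)
    (hS.mem l) (hS.dis i l hil) ha hS.one (hS.le i) (hS.le l) hc hd)
  refine h1.trans ?_
  push_cast
  have h2 : (0 : ℝ) ≤ (X i : ℝ) * X l := by positivity
  have h3 : (X i : ℝ) * X l ≤ 16 * (X i : ℝ) * (16 * (X l : ℝ)) := by nlinarith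
  exact mul_le_mul_of_nonneg_left h3 (by positivity)

/-- **the law of the symbols** -/
theorem law_box : ∃ C : ℝ, 1 ≤ C ∧ ∀ (m : ℕ) (P : Fin (m + 1) → Finset Ei) (X : Fin (m + 1) → ℕ)
    (z : ℕ), Sets P X z → ∀ Q : (prs (Fin (m + 1)) → ZMod 3) → Prop,
    |(({p : Fin (m + 1) → Ei | (∀ i, p i ∈ P i) ∧ Q fun e => cs (p e.1.1) (p e.1.2)}.ncard : ℕ) : ℝ) -
      (({α | Q α}.ncard : ℕ) : ℝ) / 3 ^ (prs (Fin (m + 1))).card * ∏ j, ((P j).card : ℝ)| ≤
    3 ^ (prs (Fin (m + 1))).card *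
      (C * (z : ℝ) ^ (-(1 / 24 : ℝ)) * ∏ j, ((16 * X j : ℕ) : ℝ)) := by
  obtain ⟨C, hC1, hC⟩ := HB_of
  refine ⟨C, hC1, fun m P X z hS Q => ?_⟩
  have h1 := Pool.Agent.Y710.XK.t_EQ (Fin (m + 1)) P (fun i => 16 * X i)
    (C * (z : ℝ) ^ (-(1 / 24 : ℝ))) (by positivity) (fun i => ?_) (hC m P X z hS) Q
  · have hN : ∀ (i1 : Fintype (prs (Fin (m + 1)) → ZMod 3)) (d : DecidablePred Q),
        (@filter _ Q d (@univ _ i1)).card = {α | Q α}.ncard := by
      intro i1 d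
      rw [← Set.ncard_coe_finset]
      congr 1
      exact Set.ext fun α => by simp
    have hM : ∀ (d1 : DecidableEq (Fin (m + 1)))
        (d2 : DecidablePred fun p : Fin (m + 1) → Ei => Q fun e => cs (p e.1.1) (p e.1.2)),
        (@filter _ (fun p : Fin (m + 1) → Ei => Q fun e => cs (p e.1.1) (p e.1.2)) d2
          (@Fintype.piFinset _ d1 _ _ P)).card =
        {p : Fin (m + 1) → Ei | (∀ i, p i ∈ P i) ∧ Q fun e => cs (p e.1.1) (p e.1.2)}.ncard := by
      intro d1 d2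
      rw [← Set.ncard_coe_finset]
      congr 1
      exact Set.ext fun α => by simp
    rw [hN, hM] at h1
    exact h1
  · have h1 : P i ⊆ QB (X i) := fun π hπ => by
      obtain ⟨h1, h3⟩ := hS.mem i π hπ
      exact mem_QB.2 ⟨h3, h1⟩
    exact (card_le_card h1).trans (card_QB_le (hS.one.trans (hS.le i)))

theorem Sets.dt {m : ℕ} {P : Fin (m + 1) → Finset Ei} {X : Fin (m + 1) → ℕ} {z : ℕ}
    (h : Sets P X z) {p : Fin (m + 1) → Ei} (hp : ∀ i, p i ∈ P i) : Dt p (fun _ => 1) := by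
  refine ⟨fun j => (h.mem j _ (hp j)).1, fun i j hij hd => ?_, fun j => one_ne_zero⟩
  have h1 := Pool.Agent.Y274.CT.eq_of_dvd (h.mem i _ (hp i)).1 (h.mem j _ (hp j)).1 hd
  exact disjoint_left.1 (h.dis i j hij) (hp i) (h1 ▸ hp j)

/-- the number of solutions -/
theorem ker_eq {m : ℕ} {p : Fin (m + 1) → Ei} (hp : Dt p (fun _ => 1)) :
    (KerV p (fun _ => 1)).ncard =
      nL (Pool.Agent.Y703.XK.ext fun e : prs (Fin (m + 1)) => cs (p e.1.1) (p e.1.2)) := by
  rw [← Nat.card_coe_set_eq]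
  unfold nL
  refine Nat.card_congr (Equiv.subtypeEquivRight fun v => ?_)
  show (∀ j, ∑ i, (1 : ZMod 3) * cs (p j) (p i) * (v i - v j) = 0) ↔ _
  refine forall_congr' fun k => ?_
  have e : ∑ i, (1 : ZMod 3) * cs (p k) (p i) * (v i - v k) =
      ∑ l, Pool.Agent.Y703.XK.ext (fun e : prs (Fin (m + 1)) => cs (p e.1.1) (p e.1.2)) k l *
        (v l - v k) := by
    refine sum_congr rfl fun l _ => ?_
    rw [one_mul]
    by_cases hkl : l = k
    · rw [hkl, sub_self, mul_zero, mul_zero]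
    · congr 1
      unfold Pool.Agent.Y703.XK.ext
      split_ifs with h h'
      · rfl
      · exact Pool.Agent.Y350.CT.rec _ _ (hp.pq l) (hp.pq k) (hp.nd l k hkl)
      · exfalso
        rcases lt_or_gt_of_ne hkl with h3 | h3
        · exact h' (by simpa [prs] using h3)
        · exact h (by simpa [prs] using h3)
  rw [e]

/-- the condition modulo `9` -/
def Adm {m : ℕ} (p : Fin (m + 1) → Ei) : Prop := (∏ i, nrm (p i)) % 9 ≠ 1

/-- **the main count** -/
theorem main : ∃ C : ℝ, 1 ≤ C ∧ ∀ (m : ℕ) (P : Fin (m + 1) → Finset Ei) (X : Fin (m + 1) → ℕ)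
    (z : ℕ), Sets P X z → ∀ r : ℕ,
    |(({p : Fin (m + 1) → Ei | (∀ i, p i ∈ P i) ∧ Adm p ∧
        (KerV p (fun _ => 1)).ncard = 3 ^ (r + 1)}.ncard : ℕ) : ℝ) -
      law m r * (({p : Fin (m + 1) → Ei | (∀ i, p i ∈ P i) ∧ Adm p}.ncard : ℕ) : ℝ)| ≤
    9 ^ (m + 1) * (3 ^ (prs (Fin (m + 1))).card *
      (C * (z : ℝ) ^ (-(1 / 24 : ℝ)) * ∏ j, ((16 * X j : ℕ) : ℝ))) := by
  obtain ⟨C, hC1, hC⟩ := law_box
  refine ⟨C, hC1, fun m P X z hS r => ?_⟩
  set E : ℝ := 3 ^ (prs (Fin (m + 1))).card *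
    (C * (z : ℝ) ^ (-(1 / 24 : ℝ)) * ∏ j, ((16 * X j : ℕ) : ℝ)) with hE
  have hE0 : 0 ≤ E := by positivity
  set Pu : (Fin (m + 1) → ZMod 9) → Fin (m + 1) → Finset Ei :=
    fun u i => (P i).filter fun π => (nrm π : ZMod 9) = u i with hPu
  have hSu : ∀ u, Sets (Pu u) X z := fun u =>
    { one := hS.one
      le := hS.le
      mem := fun i p hp => hS.mem i p (mem_filter.1 hp).1
      dis := fun i l hil => disjoint_left.2 fun p hp hp' =>
        disjoint_left.1 (hS.dis i l hil) (mem_filter.1 hp).1 (mem_filter.1 hp').1 }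
  -- the classes
  have hadm : ∀ (u : Fin (m + 1) → ZMod 9) (p : Fin (m + 1) → Ei),
      (∀ i, (nrm (p i) : ZMod 9) = u i) → (Adm p ↔ (∏ i, u i).val ≠ 1) := by
    intro u p hu
    have h1 : ((∏ i, nrm (p i) : ℕ) : ZMod 9) = ∏ i, u i := by
      rw [Nat.cast_prod]
      exact prod_congr rfl fun i _ => hu i
    have h2 : (∏ i, u i).val = (∏ i, nrm (p i)) % 9 := by
      rw [← h1, ZMod.val_natCast]
    rw [h2]
    rfl
  set U := univ.filter fun u : Fin (m + 1) → ZMod 9 => (∏ i, u i).val ≠ 1 with hU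
  have hdec : ∀ Q : (Fin (m + 1) → Ei) → Prop,
      (({p : Fin (m + 1) → Ei | (∀ i, p i ∈ P i) ∧ Adm p ∧ Q p}.ncard : ℕ) : ℝ) =
        ∑ u ∈ U, ((({p : Fin (m + 1) → Ei | (∀ i, p i ∈ Pu u i) ∧ Q p}.ncard : ℕ) : ℝ)) := by
    intro Q
    have e0 : {p : Fin (m + 1) → Ei | (∀ i, p i ∈ P i) ∧ Adm p ∧ Q p}.ncard =
        ((Fintype.piFinset P).filter fun p => Adm p ∧ Q p).card := by
      rw [← Set.ncard_coe_finset]
      congr 1
      ext p
      simp
    have h5 := card_eq_sum_card_fiberwise (f := fun (p : Fin (m + 1) → Ei) i => (nrm (p i) : ZMod 9))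
      (s := (Fintype.piFinset P).filter fun p => Adm p ∧ Q p) (t := U) (by
        intro p hp
        rw [mem_coe, mem_filter] at hp
        rw [mem_coe, hU, mem_filter]
        exact ⟨mem_univ _, (hadm _ p fun i => rfl).1 hp.2.1⟩)
    rw [e0, h5]
    push_cast
    refine sum_congr rfl fun u hu => ?_
    rw [← Set.ncard_coe_finset]
    congr 2
    ext p
    rw [hU, mem_filter] at hu
    simp only [coe_filter, Fintype.mem_piFinset, mem_filter, hPu, Set.mem_ofPred_eq, funext_iff]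
    constructor
    · rintro ⟨⟨h6, h7, h8⟩, h9⟩
      exact ⟨fun i => ⟨h6 i, h9 i⟩, h8⟩
    · rintro ⟨h6, h7⟩
      exact ⟨⟨fun i => (h6 i).1, (hadm u p fun i => (h6 i).2).2 hu.2, h7⟩, fun i => (h6 i).2⟩
  have h1 : ∀ u ∈ U, |(({p : Fin (m + 1) → Ei | (∀ i, p i ∈ Pu u i) ∧
        (KerV p (fun _ => 1)).ncard = 3 ^ (r + 1)}.ncard : ℕ) : ℝ) -
      law m r * (({p : Fin (m + 1) → Ei | (∀ i, p i ∈ Pu u i) ∧ True}.ncard : ℕ) : ℝ)| ≤ E := by
    intro u hu
    have h2 := hC m (Pu u) X z (hSu u) fun α => nL (Pool.Agent.Y703.XK.ext α) = 3 ^ (r + 1)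
    have h3 : (({α : prs (Fin (m + 1)) → ZMod 3 |
        nL (Pool.Agent.Y703.XK.ext α) = 3 ^ (r + 1)}.ncard : ℕ) : ℝ) /
          3 ^ (prs (Fin (m + 1))).card = law m r := by
      rw [← share_eq m r]
      have e5 : {α : prs (Fin (m + 1)) → ZMod 3 |
          nL (Pool.Agent.Y703.XK.ext α) = 3 ^ (r + 1)}.ncard =
          (univ.filter fun α : prs (Fin (m + 1)) → ZMod 3 =>
            nL (Pool.Agent.Y703.XK.ext α) = 3 ^ (r + 1)).card := by
        rw [← Set.ncard_coe_finset]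
        congr 1
        ext α
        simp
      rw [e5]
    rw [h3] at h2
    have e1 : {p : Fin (m + 1) → Ei | (∀ i, p i ∈ Pu u i) ∧
        (KerV p (fun _ => 1)).ncard = 3 ^ (r + 1)} =
        {p : Fin (m + 1) → Ei | (∀ i, p i ∈ Pu u i) ∧
          nL (Pool.Agent.Y703.XK.ext fun e : prs (Fin (m + 1)) => cs (p e.1.1) (p e.1.2)) =
            3 ^ (r + 1)} := by
      ext p
      refine and_congr_right fun hp => ?_
      rw [ker_eq ((hSu u).dt hp)]
    have e2 : (({p : Fin (m + 1) → Ei | (∀ i, p i ∈ Pu u i) ∧ True}.ncard : ℕ) : ℝ) =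
        ∏ j, ((Pu u j).card : ℝ) := by
      have e3 : {p : Fin (m + 1) → Ei | (∀ i, p i ∈ Pu u i) ∧ True} =
          ((Fintype.piFinset (Pu u) : Finset (Fin (m + 1) → Ei)) : Set (Fin (m + 1) → Ei)) := by
        ext p
        simp
      rw [e3, Set.ncard_coe_finset, Fintype.card_piFinset]
      push_cast
      rfl
    rw [e1, e2]
    exact h2
  have h2 : (({p : Fin (m + 1) → Ei | (∀ i, p i ∈ P i) ∧ Adm p}.ncard : ℕ) : ℝ) =
      ∑ u ∈ U, ((({p : Fin (m + 1) → Ei | (∀ i, p i ∈ Pu u i) ∧ True}.ncard : ℕ) : ℝ)) := by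
    rw [← hdec fun _ => True]
    congr 2
    ext p
    simp
  rw [h2, hdec, mul_sum, ← sum_sub_distrib]
  refine (abs_sum_le_sum_abs _ _).trans ((sum_le_sum h1).trans ?_)
  rw [sum_const, nsmul_eq_mul]
  have h3 : ((U.card : ℕ) : ℝ) ≤ 9 ^ (m + 1) := by
    have h4 : U.card ≤ 9 ^ (m + 1) := by
      refine (card_le_univ _).trans ?_
      rw [Fintype.card_fun, ZMod.card, Fintype.card_fin]
    exact_mod_cast h4
  exact mul_le_mul_of_nonneg_right h3 hE0

theorem card_prs (m : ℕ) : (prs (Fin (m + 1))).card = m * (m + 1) / 2 := by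
  have h1 : prs (Fin (m + 1)) = (univ : Finset (Fin (m + 1) × Fin (m + 1))).filter
      fun e => e.1 < e.2 := rfl
  have h2 : 2 * (prs (Fin (m + 1))).card = m * (m + 1) := by
    have h3 : (univ : Finset (Fin (m + 1))).offDiag =
        prs (Fin (m + 1)) ∪ (prs (Fin (m + 1))).image Prod.swap := by
      ext ⟨a, b⟩
      simp only [mem_offDiag, mem_univ, true_and, mem_union, h1, mem_filter, mem_image,
        Prod.exists, Prod.swap_prod_mk, Prod.mk.injEq]
      constructor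
      · intro h
        rcases lt_or_gt_of_ne h with h | h
        · exact Or.inl h
        · exact Or.inr ⟨b, a, h, rfl, rfl⟩
      · rintro (h | ⟨c, d, h, rfl, rfl⟩)
        · exact h.ne
        · exact h.ne'
    have h4 : Disjoint (prs (Fin (m + 1))) ((prs (Fin (m + 1))).image Prod.swap) := by
      rw [disjoint_left]
      rintro ⟨a, b⟩ ha hb
      rw [h1, mem_filter] at ha
      obtain ⟨⟨c, d⟩, hc, hcd⟩ := mem_image.1 hb
      rw [h1, mem_filter] at hc
      simp only [Prod.swap_prod_mk, Prod.mk.injEq] at hcd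
      obtain ⟨rfl, rfl⟩ := hcd
      exact lt_asymm ha.2 hc.2
    have h5 := congrArg card h3
    rw [offDiag_card, card_union_of_disjoint h4,
      card_image_of_injective _ Prod.swap_injective, card_univ, Fintype.card_fin] at h5
    have h6 : (m + 1) * (m + 1) - (m + 1) = m * (m + 1) := by
      rw [Nat.mul_comm m, ← Nat.mul_sub_one]
      rfl
    omega
  omega

end Pool.Agent.R338.CK
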