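import Pool.Agent.R338.CK.Box
import Pool.Agent.R338.CK.Asm
import Pool.Agent.R338.CK.JEX
import Pool.Agent.Y703.XL.InfB

/-! The exact law of the kernel of `√-3` on the `3^∞`-Selmer groups, for tuples of primes of `ℚ(√-3)`. -/

set_option autoImplicit false

open scoped Classical

namespace Pool.Agent.R338.CK

open Finset NumberField WeierstrassCurve
open Pool.Agent.Y692.QS (Ei w nr toC)
open Pool.Agent.Y715.T.Rec (cs)
open Pool.Agent.Y715.T.RecG (Pq)
open Pool.Agent.Y699.E (nrm nrm_cast nrm_mul nrm_one)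
open Pool.Agent.Y703.CT (Dt pD)
open Pool.Agent.R338.CK.XL6 (KerV SelK)
open Pool.Agent.R338.CK.S (ED)
open Pool.Agent.Y703.XL.Inf (killed SelInf)

/-- disjoint sets of prime elements `≡ 1` modulo `3` of norm up to `X i` -/
structure SetsK {K : Type} [Field K] [NumberField K] {m : ℕ} (P : Fin (m + 1) → Finset (𝓞 K))
    (X : Fin (m + 1) → ℕ) (z : ℕ) : Prop where
  one : 1 ≤ z
  le : ∀ i, z ≤ X i
  mem : ∀ i, ∀ π ∈ P i, Prime π ∧ (3 : 𝓞 K) ∣ π - 1 ∧ Algebra.norm ℤ π ≤ X i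
  dis : ∀ i l, i ≠ l → Disjoint (P i) (P l)

theorem nrm_prod {ι : Type} (s : Finset ι) (f : ι → Ei) :
    nrm (∏ i ∈ s, f i) = ∏ i ∈ s, nrm (f i) := by
  induction s using Finset.induction_on with
  | empty => rw [prod_empty, prod_empty, nrm_one]
  | insert a s ha ih => rw [prod_insert ha, prod_insert ha, nrm_mul, ih]

theorem adm_iff {m : ℕ} (q : Fin (m + 1) → Ei) : Adm q ↔ ¬ (9 : ℤ) ∣ nr (∏ i, q i) - 1 := by
  unfold Adm
  rw [← nrm_prod, ← nrm_cast]
  omega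

theorem pD_one {m : ℕ} (q : Fin (m + 1) → Ei) : pD q (fun _ => 1) = ∏ i, q i := by
  unfold pD
  have h1 : ((1 : ZMod 3)).val = 1 := rfl
  simp only [h1, pow_one]

theorem sqf {m : ℕ} {q : Fin (m + 1) → Ei} (hq : Dt q (fun _ => 1)) : Squarefree (∏ i, q i) := by
  refine Finset.squarefree_prod_of_pairwise_isCoprime (fun i _ l _ hil => ?_)
    fun i _ => (hq.pq i).prime.irreducible.squarefree
  show IsRelPrime (q i) (q l)
  rw [(hq.pq i).prime.irreducible.isRelPrime_iff_not_dvd]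
  exact hq.nd l i (Ne.symm hil)

section one

variable {K : Type} [Field K] [NumberField K] {j : Ei ≃+* 𝓞 K}
  (hj : ∀ z : Ei, Algebra.norm ℤ (j z) = nr z) {m : ℕ} {q : Fin (m + 1) → Ei}
  (hq : Dt q (fun _ => 1)) (ha : Adm q)

include hj hq ha

theorem not_cube (t : K) : t ^ 3 ≠ (j (∏ i, q i) : K) := by
  intro h
  have ht : IsIntegral ℤ t := by
    apply IsIntegral.of_pow (n := 3) (by norm_num)
    rw [h]
    exact RingOfIntegers.isIntegral_coe _
  obtain ⟨s, rfl⟩ : ∃ s : 𝓞 K, (s : K) = t := ⟨⟨t, ht⟩, rfl⟩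
  have h1 : s ^ 3 = j (∏ i, q i) := by
    apply RingOfIntegers.coe_injective
    rw [map_pow]
    exact h
  obtain ⟨z, rfl⟩ := j.surjective s
  have h2 : z ^ 3 = ∏ i, q i := by
    apply j.injective
    rw [map_pow]
    exact h1
  have h3 : IsUnit z := sqf hq z ⟨z, by rw [← h2]; ring⟩
  have h5 := Pool.Agent.Y692.QS.isUnit_iff.1 h3
  apply (adm_iff q).1 ha
  rw [← hj, ← h1, map_pow, hj, h5]
  norm_num

omit hj ha in
theorem ne_zero : (j (∏ i, q i) : K) ≠ 0 := by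
  intro h
  have h1 : j (∏ i, q i) = 0 := by
    apply RingOfIntegers.coe_injective
    rw [map_zero]
    exact h
  have h2 : ∏ i, q i = 0 := by
    apply j.injective
    rw [h1, map_zero]
  exact (sqf hq).ne_zero h2

theorem sel_one {ω : K} (hω : ω ^ 2 + ω + 1 = 0) :
    (KerV q (fun _ => 1)).ncard = 3 * (killed ω (j (∏ i, q i) : K)).ncard ∧
    (∀ r : ℕ, (KerV q (fun _ => 1)).ncard ≤ 3 ^ (r + 1) →
      Module.finrank ℤ (ED (j (∏ i, q i) : K)).toAffine.Point ≤ 2 * r) ∧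
    ((killed ω (j (∏ i, q i) : K)).ncard = 1 ↔ ∀ x : SelInf (j (∏ i, q i) : K), x = 0) ∧
    (j (∏ i, q i) : K) ≠ 0 ∧ ∀ t : K, t ^ 3 ≠ (j (∏ i, q i) : K) := by
  have h9 : ¬ (9 : ℤ) ∣ nr (pD q (fun _ => 1)) - 1 := by
    rw [pD_one]
    exact (adm_iff q).1 ha
  obtain ⟨h1, h2⟩ := Pool.Agent.R338.CK.XL6.main_pi hq h9 j
  rw [pD_one] at h1 h2
  refine ⟨?_, h2, Pool.Agent.Y703.XL.Inf.sel_triv (ne_zero hq) hω, ne_zero hq,
    not_cube hj hq ha⟩
  rw [← h1]
  exact Pool.Agent.Y703.XL.Inf.sel_card (ne_zero hq) hω (not_cube hj hq ha)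

end one

/-- the number of solutions is a power of three, at least three -/
theorem ker_pow {m : ℕ} (q : Fin (m + 1) → Ei) :
    ∃ r : ℕ, (KerV q (fun _ => 1)).ncard = 3 ^ (r + 1) := by
  let V : Submodule (ZMod 3) (Fin (m + 1) → ZMod 3) :=
    { carrier := KerV q (fun _ => 1)
      zero_mem' := fun j => by simp
      add_mem' := fun {a b} ha hb j => by
        have h1 := ha j
        have h2 := hb j
        have h3 : ∑ i, (1 : ZMod 3) * cs (q j) (q i) * ((a + b) i - (a + b) j) =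
            ∑ i, (1 : ZMod 3) * cs (q j) (q i) * (a i - a j) +
            ∑ i, (1 : ZMod 3) * cs (q j) (q i) * (b i - b j) := by
          rw [← Finset.sum_add_distrib]
          exact Finset.sum_congr rfl fun i _ => by rw [Pi.add_apply, Pi.add_apply]; ring
        rw [h3, h1, h2, add_zero]
      smul_mem' := fun c a ha j => by
        have h1 := ha j
        have h3 : ∑ i, (1 : ZMod 3) * cs (q j) (q i) * ((c • a) i - (c • a) j) =
            c * ∑ i, (1 : ZMod 3) * cs (q j) (q i) * (a i - a j) := by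
          rw [Finset.mul_sum]
          exact Finset.sum_congr rfl fun i _ => by
            rw [Pi.smul_apply, Pi.smul_apply, smul_eq_mul, smul_eq_mul]; ring
        rw [h3, h1, mul_zero] }
  have h1 : (KerV q (fun _ => 1)).ncard = Nat.card V := (Nat.card_coe_set_eq _).symm
  have h2 : Nat.card V = 3 ^ Module.finrank (ZMod 3) V := by
    rw [Module.natCard_eq_pow_finrank (K := ZMod 3), Nat.card_zmod]
  have h3 : Module.finrank (ZMod 3) V ≠ 0 := by
    intro h0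
    rw [h0, pow_zero] at h2
    have h4 : (fun _ => 1 : Fin (m + 1) → ZMod 3) ∈ V := fun j => by simp
    have h5 : Subsingleton V := (Nat.card_eq_one_iff_unique.1 h2).1
    have h6 : (⟨fun _ => 1, h4⟩ : V) = 0 := Subsingleton.elim _ _
    have h7 := congrFun (congrArg Subtype.val h6) 0
    exact one_ne_zero h7
  obtain ⟨r, hr⟩ := Nat.exists_eq_succ_of_ne_zero h3
  exact ⟨r, by rw [h1, h2, hr]⟩

/-- the condition modulo `9` -/
def AdmK {K : Type} [Field K] [NumberField K] {m : ℕ} (p : Fin (m + 1) → 𝓞 K) : Prop :=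
  ¬ (9 : ℤ) ∣ Algebra.norm ℤ (∏ i, p i) - 1

/-- **the final statement** -/
theorem fin : ∃ C : ℝ, 1 ≤ C ∧ ∀ (K : Type) [Field K] [NumberField K]
    [IsCyclotomicExtension {3} ℚ K] (ω : K), ω ^ 2 + ω + 1 = 0 →
    ∀ (m : ℕ) (P : Fin (m + 1) → Finset (𝓞 K)) (X : Fin (m + 1) → ℕ) (z : ℕ), SetsK P X z →
    (∀ p : Fin (m + 1) → 𝓞 K, (∀ i, p i ∈ P i) → AdmK p →
      (∃ r : ℕ, r ≤ m ∧ (killed ω ((∏ i, p i : 𝓞 K) : K)).ncard = 3 ^ r ∧
        Module.finrank ℤ (ED ((∏ i, p i : 𝓞 K) : K)).toAffine.Point ≤ 2 * r) ∧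
      ((killed ω ((∏ i, p i : 𝓞 K) : K)).ncard = 1 ↔ ∀ x : SelInf ((∏ i, p i : 𝓞 K) : K), x = 0) ∧
      ((∏ i, p i : 𝓞 K) : K) ≠ 0 ∧ ∀ t : K, t ^ 3 ≠ ((∏ i, p i : 𝓞 K) : K)) ∧
    ∀ r : ℕ,
      |(({p : Fin (m + 1) → 𝓞 K | (∀ i, p i ∈ P i) ∧ AdmK p ∧
        (killed ω ((∏ i, p i : 𝓞 K) : K)).ncard = 3 ^ r}.ncard : ℕ) : ℝ) -
        law m r * (({p : Fin (m + 1) → 𝓞 K | (∀ i, p i ∈ P i) ∧ AdmK p}.ncard : ℕ) : ℝ)| ≤
      144 ^ (m + 1) * 3 ^ (m * (m + 1) / 2) * C * (z : ℝ) ^ (-(1 / 24 : ℝ)) * ∏ i, (X i : ℝ) := by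
  obtain ⟨C, hC1, hC⟩ := main
  refine ⟨C, hC1, fun K _ _ _ ω hω m P X z hS => ?_⟩
  obtain ⟨j, hj⟩ := Pool.Agent.R338.CK.Y455.jex K
  set P' : Fin (m + 1) → Finset Ei := fun i => (P i).image j.symm with hP'
  have hmem : ∀ i (x : Ei), x ∈ P' i ↔ j x ∈ P i := by
    intro i x
    rw [hP', mem_image]
    constructor
    · rintro ⟨y, hy, rfl⟩
      rwa [RingEquiv.apply_symm_apply]
    · intro h
      exact ⟨j x, h, by rw [RingEquiv.symm_apply_apply]⟩
  have hS' : Sets P' X z :=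
    { one := hS.one
      le := hS.le
      mem := fun i x hx => by
        obtain ⟨h1, h2, h3⟩ := hS.mem i _ ((hmem i x).1 hx)
        refine ⟨⟨?_, ?_⟩, ?_⟩
        · exact (MulEquiv.prime_iff j).1 h1
        · have h4 := map_dvd j.symm h2
          rw [map_sub, map_one, RingEquiv.symm_apply_apply, map_ofNat] at h4
          exact h4
        · rw [hj, ← nrm_cast] at h3
          exact_mod_cast h3
      dis := fun i l hil => disjoint_left.2 fun x hx hx' =>
        disjoint_left.1 (hS.dis i l hil) ((hmem i x).1 hx) ((hmem l x).1 hx') }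
  -- the tuples
  have hprod : ∀ q : Fin (m + 1) → Ei, ∏ i, j (q i) = j (∏ i, q i) := fun q => (map_prod j _ _).symm
  have hadm : ∀ q : Fin (m + 1) → Ei, AdmK (fun i => j (q i)) ↔ Adm q := by
    intro q
    unfold AdmK
    rw [adm_iff, hprod, hj]
  have hinj : Function.Injective fun (q : Fin (m + 1) → Ei) (i : Fin (m + 1)) => j (q i) := by
    intro q q' h
    funext i
    exact j.injective (congrFun h i)
  have himg : ∀ (Q : (Fin (m + 1) → 𝓞 K) → Prop),
      {p : Fin (m + 1) → 𝓞 K | (∀ i, p i ∈ P i) ∧ Q p} =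
      (fun (q : Fin (m + 1) → Ei) (i : Fin (m + 1)) => j (q i)) ''
        {q | (∀ i, q i ∈ P' i) ∧ Q fun i => j (q i)} := by
    intro Q
    ext p
    constructor
    · rintro ⟨h1, h2⟩
      have h3 : (fun i => j (j.symm (p i))) = p := funext fun i => j.apply_symm_apply _
      refine ⟨fun i => j.symm (p i), ⟨fun i => ?_, ?_⟩, h3⟩
      · rw [hmem, RingEquiv.apply_symm_apply]
        exact h1 i
      · rw [h3]
        exact h2
    · rintro ⟨q, ⟨h1, h2⟩, rfl⟩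
      exact ⟨fun i => (hmem i _).1 (h1 i), h2⟩
  have hone : ∀ q : Fin (m + 1) → Ei, (∀ i, q i ∈ P' i) → Adm q →
      (KerV q (fun _ => 1)).ncard = 3 * (killed ω ((∏ i, j (q i) : 𝓞 K) : K)).ncard ∧
      (∀ r : ℕ, (KerV q (fun _ => 1)).ncard ≤ 3 ^ (r + 1) →
        Module.finrank ℤ (ED ((∏ i, j (q i) : 𝓞 K) : K)).toAffine.Point ≤ 2 * r) ∧
      ((killed ω ((∏ i, j (q i) : 𝓞 K) : K)).ncard = 1 ↔
        ∀ x : SelInf ((∏ i, j (q i) : 𝓞 K) : K), x = 0) ∧
      ((∏ i, j (q i) : 𝓞 K) : K) ≠ 0 ∧ ∀ t : K, t ^ 3 ≠ ((∏ i, j (q i) : 𝓞 K) : K) := by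
    intro q hq ha
    rw [hprod]
    exact sel_one hj (hS'.dt hq) ha hω
  refine ⟨fun p hp ha => ?_, fun r => ?_⟩
  · obtain ⟨q, ⟨hq, ha'⟩, rfl⟩ : p ∈ (fun (q : Fin (m + 1) → Ei) (i : Fin (m + 1)) => j (q i)) ''
        {q | (∀ i, q i ∈ P' i) ∧ AdmK fun i => j (q i)} := by
      rw [← himg]
      exact ⟨hp, ha⟩
    have ha' := (hadm q).1 ha'
    obtain ⟨h1, h2, h3⟩ := hone q hq ha'
    obtain ⟨r, hr⟩ := ker_pow q
    refine ⟨⟨r, ?_, ?_, h2 r hr.le⟩, h3⟩
    · have h4 : (KerV q (fun _ => 1)).ncard ≤ 3 ^ (m + 1) := by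
        have h5 := Set.ncard_le_ncard (Set.subset_univ (KerV q (fun _ => 1))) Set.finite_univ
        rwa [Set.ncard_univ, Nat.card_fun, Nat.card_zmod, Nat.card_fin] at h5
      rw [hr] at h4
      have h5 := (Nat.pow_le_pow_iff_right (by norm_num : 1 < 3)).1 h4
      omega
    rw [hr, pow_succ'] at h1
    exact (Nat.eq_of_mul_eq_mul_left (by norm_num) h1).symm
  · have h1 := hC m P' X z hS' r
    have e1 : {p : Fin (m + 1) → 𝓞 K | (∀ i, p i ∈ P i) ∧ AdmK p ∧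
        (killed ω ((∏ i, p i : 𝓞 K) : K)).ncard = 3 ^ r}.ncard =
        {q : Fin (m + 1) → Ei | (∀ i, q i ∈ P' i) ∧ Adm q ∧
          (KerV q (fun _ => 1)).ncard = 3 ^ (r + 1)}.ncard := by
      rw [himg fun p => AdmK p ∧ (killed ω ((∏ i, p i : 𝓞 K) : K)).ncard = 3 ^ r,
        Set.ncard_image_of_injective _ hinj]
      congr 1
      ext q
      refine and_congr_right fun hq => ?_
      rw [hadm]
      refine and_congr_right fun ha => ?_
      rw [(hone q hq ha).1, pow_succ']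
      constructor
      · intro h
        rw [h]
      · intro h
        exact Nat.eq_of_mul_eq_mul_left (by norm_num) h
    have e2 : {p : Fin (m + 1) → 𝓞 K | (∀ i, p i ∈ P i) ∧ AdmK p}.ncard =
        {q : Fin (m + 1) → Ei | (∀ i, q i ∈ P' i) ∧ Adm q}.ncard := by
      rw [himg AdmK, Set.ncard_image_of_injective _ hinj]
      congr 1
      ext q
      exact and_congr_right fun _ => hadm q
    rw [e1, e2]
    refine h1.trans (le_of_eq ?_)
    rw [card_prs]
    have h3 : ∏ i, ((16 * X i : ℕ) : ℝ) = 16 ^ (m + 1) * ∏ i, (X i : ℝ) := by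
      have h4 : ∀ i, ((16 * X i : ℕ) : ℝ) = 16 * (X i : ℝ) := fun i => by push_cast; ring
      simp only [h4]
      rw [prod_mul_distrib, prod_const, card_univ, Fintype.card_fin]
    rw [h3]
    have h5 : (144 : ℝ) ^ (m + 1) = 9 ^ (m + 1) * 16 ^ (m + 1) := by
      rw [← mul_pow]
      norm_num
    rw [h5]
    ring

end Pool.Agent.R338.CK
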