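import Pool.Agent.R338.CK.Fin

/-! Consequences of the law for the tuples of primes of `ℚ(√-3)`. -/

set_option autoImplicit false

open scoped Classical

namespace Pool.Agent.R338.CK

open Finset NumberField WeierstrassCurve
open Pool.Agent.R338.CK.S (ED)
open Pool.Agent.Y703.XL.Inf (killed SelInf)

/-- counting the values of a function -/
theorem fib {T : Type} {A : Set T} (hA : A.Finite) (f : T → ℕ) (k : ℕ) :
    {p | p ∈ A ∧ f p < k}.ncard = ∑ i ∈ range k, {p | p ∈ A ∧ f p = i}.ncard := by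
  have h1 : ∀ (Q : T → Prop) (d : DecidablePred Q),
      {p | p ∈ A ∧ Q p}.ncard = (@filter _ Q d hA.toFinset).card := by
    intro Q d
    rw [← Set.ncard_coe_finset]
    congr 1
    ext p
    simp
  rw [h1 (fun p => f p < k) (fun p => Nat.decLt _ _),
    sum_congr rfl fun i _ => h1 (fun p => f p = i) (fun p => Nat.decEq _ _)]
  rw [card_eq_sum_card_fiberwise (f := f) (t := range k) (by
    intro p hp
    rw [mem_coe, mem_filter] at hp
    rw [mem_coe, mem_range]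
    exact hp.2)]
  refine sum_congr rfl fun i hi => ?_
  congr 1
  ext p
  simp only [mem_filter]
  constructor
  · rintro ⟨⟨h2, h3⟩, h4⟩
    exact ⟨h2, h4⟩
  · rintro ⟨h2, h3⟩
    exact ⟨⟨h2, by rw [h3]; exact mem_range.1 hi⟩, h3⟩

/-- the sum of the values of a function -/
theorem fib_sum {T : Type} {A : Set T} (hA : A.Finite) (f : T → ℕ) (k : ℕ)
    (hf : ∀ p ∈ A, f p < k) :
    ∑ᶠ p ∈ A, (f p : ℝ) = ∑ i ∈ range k, (i : ℝ) * ({p | p ∈ A ∧ f p = i}.ncard : ℝ) := by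
  have h1 : ∀ (Q : T → Prop) (d : DecidablePred Q),
      {p | p ∈ A ∧ Q p}.ncard = (@filter _ Q d hA.toFinset).card := by
    intro Q d
    rw [← Set.ncard_coe_finset]
    congr 1
    ext p
    simp
  rw [finsum_mem_eq_finite_toFinset_sum _ hA]
  rw [← sum_fiberwise_of_maps_to (s := hA.toFinset) (t := range k) (g := f)
    (fun p hp => mem_range.2 (hf p (hA.mem_toFinset.1 hp)))]
  refine sum_congr rfl fun i _ => ?_
  rw [h1 (fun p => f p = i) (fun p => Nat.decEq _ _)]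
  rw [sum_congr rfl (g := fun _ => (i : ℝ)) (fun p hp => by rw [(mem_filter.1 hp).2])]
  rw [sum_const, nsmul_eq_mul, mul_comm]

/-- the tuples of the class -/
def cls {K : Type} [Field K] [NumberField K] {m : ℕ} (P : Fin (m + 1) → Finset (𝓞 K)) :
    Set (Fin (m + 1) → 𝓞 K) := {p | (∀ i, p i ∈ P i) ∧ AdmK p}

theorem cls_fin {K : Type} [Field K] [NumberField K] {m : ℕ} (P : Fin (m + 1) → Finset (𝓞 K)) :
    (cls P).Finite := by
  refine (Finset.finite_toSet (Fintype.piFinset P)).subset fun p hp => ?_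
  rw [mem_coe, Fintype.mem_piFinset]
  exact hp.1

/-- the dimension of the kernel of `√-3` -/
noncomputable def W {K : Type} [Field K] [NumberField K] (ω : K) {m : ℕ} (p : Fin (m + 1) → 𝓞 K) :
    ℕ := Nat.log 3 (killed ω ((∏ i, p i : 𝓞 K) : K)).ncard

/-- the error term -/
noncomputable def err (C : ℝ) (m : ℕ) (X : Fin (m + 1) → ℕ) (z : ℕ) : ℝ :=
  144 ^ (m + 1) * 3 ^ (m * (m + 1) / 2) * C * (z : ℝ) ^ (-(1 / 24 : ℝ)) * ∏ i, (X i : ℝ)

theorem err_nonneg {C : ℝ} (hC : 1 ≤ C) (m : ℕ) (X : Fin (m + 1) → ℕ) (z : ℕ) :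
    0 ≤ err C m X z := by
  unfold err
  have : (0 : ℝ) ≤ C := by linarith
  positivity

theorem fin2 : ∃ C : ℝ, 1 ≤ C ∧ ∀ (K : Type) [Field K] [NumberField K]
    [IsCyclotomicExtension {3} ℚ K] (ω : K), ω ^ 2 + ω + 1 = 0 →
    ∀ (m : ℕ) (P : Fin (m + 1) → Finset (𝓞 K)) (X : Fin (m + 1) → ℕ) (z : ℕ), SetsK P X z →
    (∀ p ∈ cls P,
      W ω p ≤ m ∧ (killed ω ((∏ i, p i : 𝓞 K) : K)).ncard = 3 ^ W ω p ∧
      Module.finrank ℤ (ED ((∏ i, p i : 𝓞 K) : K)).toAffine.Point ≤ 2 * W ω p ∧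
      (W ω p = 0 ↔ ∀ x : SelInf ((∏ i, p i : 𝓞 K) : K), x = 0) ∧
      ((∏ i, p i : 𝓞 K) : K) ≠ 0 ∧ ∀ t : K, t ^ 3 ≠ ((∏ i, p i : 𝓞 K) : K)) ∧
    (∀ r : ℕ, |(({p | p ∈ cls P ∧ W ω p = r}.ncard : ℕ) : ℝ) - law m r * ((cls P).ncard : ℝ)| ≤
      err C m X z) ∧
    (∀ k : ℕ, |(({p | p ∈ cls P ∧ W ω p < k}.ncard : ℕ) : ℝ) -
      (∑ i ∈ range k, law m i) * ((cls P).ncard : ℝ)| ≤ k * err C m X z) ∧
    |∑ᶠ p ∈ cls P, (W ω p : ℝ) - (∑ i ∈ range (m + 1), (i : ℝ) * law m i) *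
      ((cls P).ncard : ℝ)| ≤ (m + 1) ^ 2 * err C m X z := by
  obtain ⟨C, hC1, hC⟩ := fin
  refine ⟨C, hC1, fun K _ _ _ ω hω m P X z hS => ?_⟩
  obtain ⟨h1, h2⟩ := hC K ω hω m P X z hS
  have hE0 := err_nonneg hC1 m X z
  have hlog : ∀ r : ℕ, Nat.log 3 (3 ^ r) = r := fun r => Nat.log_pow (by norm_num) r
  have a1 : ∀ p ∈ cls P,
      W ω p ≤ m ∧ (killed ω ((∏ i, p i : 𝓞 K) : K)).ncard = 3 ^ W ω p ∧
      Module.finrank ℤ (ED ((∏ i, p i : 𝓞 K) : K)).toAffine.Point ≤ 2 * W ω p ∧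
      (W ω p = 0 ↔ ∀ x : SelInf ((∏ i, p i : 𝓞 K) : K), x = 0) ∧
      ((∏ i, p i : 𝓞 K) : K) ≠ 0 ∧ ∀ t : K, t ^ 3 ≠ ((∏ i, p i : 𝓞 K) : K) := by
    intro p hp
    obtain ⟨⟨r, hr, hk, hrk⟩, hs, h0, hc⟩ := h1 p hp.1 hp.2
    have hW : W ω p = r := by
      unfold W
      rw [hk, hlog]
    rw [hW]
    refine ⟨hr, hk, hrk, ?_, h0, hc⟩
    rw [← hs, hk]
    constructor
    · intro h
      rw [h, pow_zero]
    · intro h
      exact (Nat.pow_eq_one.1 h).resolve_left (by norm_num)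
  have a2 : ∀ r : ℕ, |(({p | p ∈ cls P ∧ W ω p = r}.ncard : ℕ) : ℝ) -
      law m r * ((cls P).ncard : ℝ)| ≤ err C m X z := by
    intro r
    have e1 : {p | p ∈ cls P ∧ W ω p = r} = {p : Fin (m + 1) → 𝓞 K | (∀ i, p i ∈ P i) ∧ AdmK p ∧
        (killed ω ((∏ i, p i : 𝓞 K) : K)).ncard = 3 ^ r} := by
      ext p
      constructor
      · rintro ⟨h3, h4⟩
        refine ⟨h3.1, h3.2, ?_⟩
        rw [(a1 p h3).2.1, h4]
      · rintro ⟨h3, h4, h5⟩
        refine ⟨⟨h3, h4⟩, ?_⟩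
        unfold W
        rw [h5, hlog]
    rw [e1]
    exact h2 r
  refine ⟨a1, a2, fun k => ?_, ?_⟩
  · rw [fib (cls_fin P) (W ω) k]
    push_cast
    rw [sum_mul, ← sum_sub_distrib]
    refine (abs_sum_le_sum_abs _ _).trans ((sum_le_sum fun i _ => a2 i).trans ?_)
    rw [sum_const, card_range, nsmul_eq_mul]
  · rw [fib_sum (cls_fin P) (W ω) (m + 1) fun p hp => Nat.lt_succ_of_le (a1 p hp).1]
    rw [sum_mul, ← sum_sub_distrib]
    refine (abs_sum_le_sum_abs _ _).trans ?_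
    have h3 : ∀ i ∈ range (m + 1), |(i : ℝ) * (({p | p ∈ cls P ∧ W ω p = i}.ncard : ℕ) : ℝ) -
        (i : ℝ) * law m i * ((cls P).ncard : ℝ)| ≤ (m + 1) * err C m X z := by
      intro i hi
      have hi' : (i : ℝ) ≤ m + 1 := by exact_mod_cast (mem_range.1 hi).le
      rw [mul_assoc, ← mul_sub, abs_mul, Nat.abs_cast]
      exact mul_le_mul hi' (a2 i) (abs_nonneg _) (by positivity)
    refine (sum_le_sum h3).trans (le_of_eq ?_)
    rw [sum_const, card_range, nsmul_eq_mul]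
    push_cast
    ring

end Pool.Agent.R338.CK
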