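import Pool.Agent.Y994.XL.LA
import Pool.Agent.Y968.XL.ABS
import Pool.Agent.Y31.XL.REC
import Pool.Agent.Y804.XK.SYM
import Pool.Agent.Y275.XL.LIM

/-! The exact number of the symmetric systems with a given number of solutions (from the work of
helper994, helper968, helper31, helper804, helper275, helper85 on the limit). -/

set_option autoImplicit false

open scoped Classical

namespace Pool.Agent.R338.CK

open Function Module Finset
open Pool.Agent.Y759.CX (fr fr_equiv fr_comp)
open Pool.Agent.Y703.XK (prs)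
open Pool.Agent.Y703.XL (nR nG nA)
open Pool.Agent.Y85.XK

/-- the proportion of the symmetric `m × m` matrices over the field with three elements that have
corank `r` -/
noncomputable def law (m r : ℕ) : ℝ :=
  (∏ i ∈ range ((m - r + 1) / 2), (1 - (1 / 3 : ℝ) ^ (2 * i + 1))) *
    ∏ j ∈ range r, (1 - (1 / 3 : ℝ) ^ (m - j)) / (3 ^ (j + 1) - 1)

theorem law_zero (m : ℕ) : law m 0 = sp m := by
  unfold law sp
  simp

theorem law_zero_succ (r : ℕ) : law 0 (r + 1) = 0 := by
  unfold law
  rw [prod_range_succ']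
  simp

theorem law_succ (m r : ℕ) : ((3 : ℝ) ^ (r + 1) - 1) * law (m + 1) (r + 1) =
    (1 - (1 / 3 : ℝ) ^ (m + 1)) * law m r := by
  unfold law
  have h1 : m + 1 - (r + 1) = m - r := by omega
  rw [h1]
  rw [prod_div_distrib, prod_div_distrib, prod_range_succ', prod_range_succ (fun j => (3 : ℝ) ^ (j + 1) - 1)]
  have h2 : ∀ j, m + 1 - (j + 1) = m - j := fun j => by omega
  simp only [h2, Nat.sub_zero]
  have h3 : (3 : ℝ) ^ (r + 1) - 1 ≠ 0 := by
    have : (1 : ℝ) < 3 ^ (r + 1) := one_lt_pow₀ (by norm_num) (by omega)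
    linarith
  have h4 : ∏ j ∈ range r, ((3 : ℝ) ^ (j + 1) - 1) ≠ 0 := by
    refine prod_ne_zero_iff.2 fun j _ => ?_
    have : (1 : ℝ) < 3 ^ (j + 1) := one_lt_pow₀ (by norm_num) (by omega)
    linarith
  field_simp

/-- the law of the radical -/
theorem fr_nR (V : Type) [AddCommGroup V] [Module (ZMod 3) V] [Finite V] (r : ℕ) :
    fr (fun S : Sy V => nR S = 3 ^ r) = law (finrank (ZMod 3) V) r := by
  induction r generalizing V with
  | zero =>
    have h1 : (fun S : Sy V => nR S = 3 ^ 0) = fun S : Sy V => Ns S.1 := by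
      funext S
      rw [pow_zero]
      exact propext (Pool.Agent.Y275.XL.nR_one S)
    rw [h1, fr_Ns Pool.Agent.Y804.XK.t_SYM, law_zero]
  | succ r ih =>
    rcases Nat.eq_zero_or_pos (finrank (ZMod 3) V) with h0 | hpos
    · have hsub : Subsingleton V := finrank_zero_iff.mp h0
      have h1 : (fun S : Sy V => nR S = 3 ^ (r + 1)) = fun _ => False := by
        funext S
        apply propext
        refine ⟨fun h => ?_, fun h => h.elim⟩
        have h2 : nR S = 1 := (Pool.Agent.Y275.XL.nR_one S).mpr fun x _ => Subsingleton.elim _ _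
        rw [h2] at h
        have h3 : 1 < 3 ^ (r + 1) := Nat.one_lt_pow (by omega) (by norm_num)
        omega
      rw [h1, h0, law_zero_succ]
      unfold fr
      have : IsEmpty {g : Sy V // False} := ⟨fun x => x.2⟩
      rw [Nat.card_of_isEmpty, Nat.cast_zero, zero_div]
    · obtain ⟨m, hm⟩ : ∃ m, finrank (ZMod 3) V = m + 1 :=
        ⟨finrank (ZMod 3) V - 1, by omega⟩
      have hW : finrank (ZMod 3) (Fin m → ZMod 3) = m := by
        rw [finrank_fin_fun]
      have h1 := Pool.Agent.Y31.XL.REC.t_REC V (Fin m → ZMod 3) r (by rw [hW, hm])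
      rw [ih (Fin m → ZMod 3), hW, hm] at h1
      rw [hm]
      have h2 := law_succ m r
      have h3 : (3 : ℝ) ^ (r + 1) - 1 ≠ 0 := by
        have : (1 : ℝ) < 3 ^ (r + 1) := one_lt_pow₀ (by norm_num) (by omega)
        linarith
      exact mul_left_cancel₀ h3 (h1.trans h2.symm)

/-- the number of the solutions -/
noncomputable def nL {m : ℕ} (β : Fin (m + 1) → Fin (m + 1) → ZMod 3) : ℕ :=
  Nat.card {v : Fin (m + 1) → ZMod 3 // ∀ k, ∑ l, β k l * (v l - v k) = 0}

theorem nA_empty {m : ℕ} (β : Fin (m + 1) → Fin (m + 1) → ZMod 3) :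
    nA (U := PEmpty) (J := Fin (m + 1)) (fun u _ => u.elim) (fun u _ => u.elim) β = nL β := by
  unfold nA nL
  have e : ∀ f : PEmpty → ZMod 3, ∑ u, f u = 0 := fun f => by
    rw [Finset.univ_eq_empty, Finset.sum_empty]
  refine Nat.card_congr
    { toFun := fun p => ⟨p.1.2, fun k => ?_⟩
      invFun := fun v => ⟨(fun u => u.elim, v.1), fun u => u.elim, fun k => ?_⟩
      left_inv := fun p => Subtype.ext (Prod.ext (funext fun u => u.elim) rfl)
      right_inv := fun v => rfl }
  · have := p.2.2 k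
    rw [e, zero_add] at this
    exact this
  · rw [e, zero_add]
    exact v.2 k

/-- **the exact law of the number of solutions** -/
theorem share_eq (m r : ℕ) :
    ((univ.filter fun α : prs (Fin (m + 1)) → ZMod 3 =>
      nL (Pool.Agent.Y703.XK.ext α) = 3 ^ (r + 1)).card : ℝ) / 3 ^ (prs (Fin (m + 1))).card =
      law m r := by
  let ks : Fin (m + 1) := 0
  let A : PEmpty → PEmpty → ZMod 3 := fun u _ => u.elim
  let B : PEmpty → Fin (m + 1) → ZMod 3 := fun u _ => u.elim
  have hA : ∀ u v, A u v = A v u := fun u => u.elim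
  obtain ⟨Z, hm, key⟩ := Pool.Agent.Y968.XL.t_ABS ({k : Fin (m + 1) // k ≠ ks} → F) (PEmpty → F)
    (bf (mA A B)) (bf (mC ks B)) (bf_symm _ (mA_symm A B hA))
    (fun x _ => Subsingleton.elim _ _)
  rw [finrank_fintype_fun_eq_card, finrank_fintype_fun_eq_card] at hm
  have e1 : Fintype.card {k : Fin (m + 1) // k ≠ ks} = m := by
    rw [Fintype.card_subtype_compl, Fintype.card_subtype_eq, Fintype.card_fin,
      Nat.add_sub_cancel]
  have hZ : finrank (ZMod 3) Z = m := by
    have h1 := Submodule.finrank_le Z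
    rw [finrank_fintype_fun_eq_card, e1] at h1
    rw [e1, Fintype.card_pempty, add_zero] at hm
    exact le_antisymm h1 hm
  have h5 : ((univ.filter fun α : prs (Fin (m + 1)) → ZMod 3 =>
      nL (Pool.Agent.Y703.XK.ext α) = 3 ^ (r + 1)).card : ℝ) / 3 ^ (prs (Fin (m + 1))).card =
      fr (fun S : Sy ({k : Fin (m + 1) // k ≠ ks} → F) =>
        nG (bf (mA A B)) (bf (mC ks B)) S.1 = 3 ^ r) := by
    let S0 : Sy ({k : Fin (m + 1) // k ≠ ks} → F) := ⟨bf (mZ ks B), bf_symm _ (mZ_symm ks B)⟩
    rw [← fr_equiv (Equiv.addRight S0)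
      (fun S : Sy ({k : Fin (m + 1) // k ≠ ks} → F) =>
        nG (bf (mA A B)) (bf (mC ks B)) S.1 = 3 ^ r),
      ← fr_comp (pa ks) (pa_surj ks)]
    unfold Pool.Agent.Y759.CX.fr
    have h6 : Nat.card (prs (Fin (m + 1)) → F) = 3 ^ (prs (Fin (m + 1))).card := by
      rw [Nat.card_fun, Nat.card_eq_fintype_card, Nat.card_eq_fintype_card, ZMod.card,
        Fintype.card_coe]
    rw [h6, Nat.card_eq_fintype_card, Fintype.card_subtype]
    push_cast
    congr 3
    refine Finset.filter_congr fun α _ => ?_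
    rw [← nA_empty, Pool.Agent.Y994.XL.nA_eq ks A B hA α, bf_add, pow_succ, mul_comm (3 ^ r) 3]
    exact Nat.mul_right_inj (by norm_num)
  rw [h5, key, fr_nR, hZ]

end Pool.Agent.R338.CK
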